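import Mathlib

/-!
# The numerical conditions hold for large `m`

Take `τ = c1 + c3`. `hA`: it suffices that
`1 + c3 m + c1 m + (c2 m + 1) (2 τ + 1) ≤ (k m - (τ + 2)) (τ + 1)`; as `k ≥ 2 c2 + 3` the right side is at least
`m ((2 τ + 2) c2 + 3 (τ + 1)) - (τ + 2) (τ + 1)`, so `m ≥ m0(τ)` suffices.
`hB`: `log 2 * (1 + (2 ^ (c3 m) + 1) (τ + 1) (2 k m + 1) + 2 ^ (τ + 2) * 2 ^ (c3 m) * (c1 m + 1)) * 2 ^ (τ + 1)
< (θ / 2) * 2 ^ (k m)`, `θ = 2 ^ (τ + 1) / (4 (τ + 2)) ^ (τ + 2)`, is true for large `m` as `k ≥ c3 + 1` (the left side is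
`≤ C * m * 2 ^ (c3 m)`), and `(1 - θ / 2) ^ N ≤ exp (- θ N / 2)`. Here `2 ^ (k m) * (τ + 2) * 2 ^ (k m - (τ + 2)) + 1
≤ 2 ^ (2 k m)`, or `2 ^ (2 k m + 1)`.
-/

set_option autoImplicit false

namespace Pool.Agent.Lib.Pf91712

namespace AsymAux

theorem lin_lt_pow (C ε : ℝ) (hε : 0 < ε) : ∃ m1 : ℕ, ∀ m : ℕ, m1 ≤ m → C * m < ε * 2 ^ m := by
  have h := tendsto_pow_const_div_const_pow_of_one_lt 1 (r := (2 : ℝ)) (by norm_num)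
  have h2 : ∀ᶠ n : ℕ in Filter.atTop, (n : ℝ) ^ 1 / 2 ^ n < ε / (|C| + 1) :=
    h.eventually_lt_const (by positivity)
  obtain ⟨m1, hm1⟩ := Filter.eventually_atTop.1 h2
  refine ⟨m1, fun m hm => ?_⟩
  have h3 := hm1 m hm
  rw [pow_one, div_lt_div_iff₀ (by positivity) (by positivity)] at h3
  have hC : C ≤ |C| := le_abs_self C
  have hm0 : (0 : ℝ) ≤ m := Nat.cast_nonneg m
  nlinarith

/-- `(τ + 2) * 2 ^ (K - (τ + 2)) ≤ 2 ^ K` -/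
theorem p1 (τ K : ℕ) (hK : τ + 2 ≤ K) : (τ + 2) * 2 ^ (K - (τ + 2)) ≤ 2 ^ K := by
  calc (τ + 2) * 2 ^ (K - (τ + 2)) ≤ 2 ^ (τ + 2) * 2 ^ (K - (τ + 2)) :=
        Nat.mul_le_mul_right _ (Nat.lt_two_pow_self).le
    _ = 2 ^ K := by rw [← pow_add]; congr 1; omega

theorem p2 (c1 c2 c3 k m t d w : ℕ) (hk : 2 * c2 + 3 ≤ k)
    (hm : (c1 + c3 + 1) * (c1 + c3 + 4) ≤ m)
    (ht : t ≤ 2 ^ (c3 * m)) (hd : d ≤ 2 ^ (c2 * m)) (hw : w ≤ 2 ^ (c1 * m)) :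
    2 * (t * w * (d + 1) ^ (2 * (c1 + c3) + 1)) ≤
      (2 ^ (k * m - (c1 + c3 + 2))) ^ (c1 + c3 + 1) := by
  set τ := c1 + c3 with hτ
  have hd1 : d + 1 ≤ 2 ^ (c2 * m + 1) := by
    have : 1 ≤ 2 ^ (c2 * m) := Nat.one_le_two_pow
    rw [pow_succ]; omega
  have hτm : c3 * m + c1 * m = τ * m := by rw [hτ]; ring
  have h1 : 2 * (t * w * (d + 1) ^ (2 * τ + 1)) ≤
      2 ^ (1 + τ * m + (c2 * m + 1) * (2 * τ + 1)) := by
    calc 2 * (t * w * (d + 1) ^ (2 * τ + 1))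
        ≤ 2 * (2 ^ (c3 * m) * 2 ^ (c1 * m) * (2 ^ (c2 * m + 1)) ^ (2 * τ + 1)) := by
          gcongr
      _ = 2 ^ (1 + τ * m + (c2 * m + 1) * (2 * τ + 1)) := by
          rw [← pow_mul, ← pow_add, ← pow_add, hτm, ← pow_succ']
          congr 1; ring
  refine h1.trans ?_
  rw [← pow_mul]
  apply Nat.pow_le_pow_right (by norm_num)
  have hkm : (2 * c2 + 3) * m ≤ k * m := Nat.mul_le_mul_right _ hk
  have h2 : τ + 2 ≤ k * m := by nlinarith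
  obtain ⟨e, he⟩ := Nat.exists_eq_add_of_le h2
  have h3 : k * m - (τ + 2) = e := by omega
  rw [h3]
  rw [he] at hkm
  nlinarith

theorem p3 (c1 c3 k τ m t w : ℕ) (hk' : c3 + 1 ≤ k) (hm1 : 1 ≤ m)
    (hp1 : (τ + 2) * 2 ^ (k * m - (τ + 2)) ≤ 2 ^ (k * m))
    (ht : t ≤ 2 ^ (c3 * m)) (hw : w ≤ 2 ^ (c1 * m)) (θ : ℝ) (hθ0 : 0 < θ) (hθ1 : θ ≤ 1)
    (hm : ((2 ^ (τ + 1) * (1 + (2 * k + 1) * (2 * (τ + 1)) + (c1 + 1) * 2 ^ (τ + 2)) : ℕ) : ℝ) * m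
      < θ / 2 * 2 ^ m) :
    (2 * (((2 ^ (k * m) * (τ + 2) * 2 ^ (k * m - (τ + 2)) + 1) ^ ((t + 1) * (τ + 1)) *
        ((w + 1) ^ (2 ^ (τ + 2))) ^ t : ℕ) : ℝ)) ^ (2 ^ (τ + 1)) *
      (1 - θ / 2) ^ (2 ^ (k * m)) < 1 := by
  have hT : 1 ≤ 2 ^ (c3 * m) := Nat.one_le_two_pow
  have hN1 : 2 ^ (k * m) * (τ + 2) * 2 ^ (k * m - (τ + 2)) + 1 ≤ 2 ^ (2 * k * m + 1) := by
    have e1 : 2 ^ (k * m) * (τ + 2) * 2 ^ (k * m - (τ + 2)) ≤ 2 ^ (k * m) * 2 ^ (k * m) := by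
      rw [mul_assoc]
      exact Nat.mul_le_mul_left _ hp1
    have e2 : 2 ^ (k * m) * 2 ^ (k * m) = 2 ^ (2 * k * m) := by
      rw [← pow_add]; congr 1; ring
    have e3 : 1 ≤ 2 ^ (2 * k * m) := Nat.one_le_two_pow
    rw [pow_succ]
    omega
  have hw1 : w + 1 ≤ 2 ^ (c1 * m + 1) := by
    have : 1 ≤ 2 ^ (c1 * m) := Nat.one_le_two_pow
    rw [pow_succ]; omega
  set E : ℕ := 2 ^ (τ + 1) * (1 + (2 * k + 1) * (2 * (τ + 1)) + (c1 + 1) * 2 ^ (τ + 2)) with hE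
  have hbase : (2 * ((2 ^ (k * m) * (τ + 2) * 2 ^ (k * m - (τ + 2)) + 1) ^ ((t + 1) * (τ + 1)) *
        ((w + 1) ^ (2 ^ (τ + 2))) ^ t)) ^ (2 ^ (τ + 1)) ≤ 2 ^ (E * m * 2 ^ (c3 * m)) := by
    have e1 : (2 ^ (k * m) * (τ + 2) * 2 ^ (k * m - (τ + 2)) + 1) ^ ((t + 1) * (τ + 1)) ≤
        2 ^ ((2 * k * m + 1) * ((2 ^ (c3 * m) + 1) * (τ + 1))) := by
      rw [pow_mul 2 (2 * k * m + 1)]
      calc _ ≤ (2 ^ (2 * k * m + 1)) ^ ((t + 1) * (τ + 1)) := Nat.pow_le_pow_left hN1 _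
        _ ≤ _ := Nat.pow_le_pow_right (Nat.pos_of_ne_zero (by positivity)) (by gcongr)
    have e2 : ((w + 1) ^ (2 ^ (τ + 2))) ^ t ≤
        2 ^ ((c1 * m + 1) * (2 ^ (τ + 2) * 2 ^ (c3 * m))) := by
      rw [← pow_mul, pow_mul 2 (c1 * m + 1)]
      calc _ ≤ (2 ^ (c1 * m + 1)) ^ (2 ^ (τ + 2) * t) := Nat.pow_le_pow_left hw1 _
        _ ≤ _ := Nat.pow_le_pow_right (Nat.pos_of_ne_zero (by positivity)) (by gcongr)
    calc _ ≤ (2 * (2 ^ ((2 * k * m + 1) * ((2 ^ (c3 * m) + 1) * (τ + 1))) *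
          2 ^ ((c1 * m + 1) * (2 ^ (τ + 2) * 2 ^ (c3 * m))))) ^ (2 ^ (τ + 1)) := by
          gcongr
      _ = 2 ^ ((1 + ((2 * k * m + 1) * ((2 ^ (c3 * m) + 1) * (τ + 1)) +
          (c1 * m + 1) * (2 ^ (τ + 2) * 2 ^ (c3 * m)))) * 2 ^ (τ + 1)) := by
          rw [← pow_add, ← pow_succ', ← pow_mul]
          congr 2; ring
      _ ≤ _ := by
          apply Nat.pow_le_pow_right (by norm_num)
          have f1 : 1 ≤ m * 2 ^ (c3 * m) := Nat.one_le_iff_ne_zero.2 (by positivity)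
          have f2 : (2 * k * m + 1) * ((2 ^ (c3 * m) + 1) * (τ + 1)) ≤
              ((2 * k + 1) * (2 * (τ + 1))) * (m * 2 ^ (c3 * m)) := by
            calc (2 * k * m + 1) * ((2 ^ (c3 * m) + 1) * (τ + 1))
                ≤ ((2 * k + 1) * m) * ((2 * 2 ^ (c3 * m)) * (τ + 1)) := by
                  gcongr
                  · nlinarith
                  · omega
              _ = _ := by ring
          have f3 : (c1 * m + 1) * (2 ^ (τ + 2) * 2 ^ (c3 * m)) ≤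
              ((c1 + 1) * 2 ^ (τ + 2)) * (m * 2 ^ (c3 * m)) := by
            calc (c1 * m + 1) * (2 ^ (τ + 2) * 2 ^ (c3 * m))
                ≤ ((c1 + 1) * m) * (2 ^ (τ + 2) * 2 ^ (c3 * m)) := by
                  gcongr
                  nlinarith
              _ = _ := by ring
          calc (1 + ((2 * k * m + 1) * ((2 ^ (c3 * m) + 1) * (τ + 1)) +
                (c1 * m + 1) * (2 ^ (τ + 2) * 2 ^ (c3 * m)))) * 2 ^ (τ + 1)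
              ≤ (m * 2 ^ (c3 * m) + (((2 * k + 1) * (2 * (τ + 1))) * (m * 2 ^ (c3 * m)) +
                ((c1 + 1) * 2 ^ (τ + 2)) * (m * 2 ^ (c3 * m)))) * 2 ^ (τ + 1) := by
                gcongr
            _ = E * m * 2 ^ (c3 * m) := by rw [hE]; ring
  have hcast : (2 * (((2 ^ (k * m) * (τ + 2) * 2 ^ (k * m - (τ + 2)) + 1) ^ ((t + 1) * (τ + 1)) *
        ((w + 1) ^ (2 ^ (τ + 2))) ^ t : ℕ) : ℝ)) ^ (2 ^ (τ + 1)) ≤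
      (2 : ℝ) ^ (E * m * 2 ^ (c3 * m)) := by
    have := (Nat.cast_le (α := ℝ)).2 hbase
    rw [Nat.cast_pow, Nat.cast_mul 2] at this
    exact_mod_cast this
  have hθ2 : 0 ≤ 1 - θ / 2 := by linarith
  have hexp1 : (2 : ℝ) ^ (E * m * 2 ^ (c3 * m)) ≤ Real.exp ((E * m * 2 ^ (c3 * m) : ℕ) : ℝ) := by
    rw [← Real.exp_one_pow]
    apply pow_le_pow_left₀ (by norm_num)
    have := Real.exp_one_gt_d9
    linarith
  have hexp2 : (1 - θ / 2) ^ (2 ^ (k * m)) ≤ Real.exp (-(θ / 2 * 2 ^ (k * m))) := by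
    have h1 : 1 - θ / 2 ≤ Real.exp (-(θ / 2)) := by
      have := Real.add_one_le_exp (-(θ / 2))
      linarith
    calc (1 - θ / 2) ^ (2 ^ (k * m)) ≤ (Real.exp (-(θ / 2))) ^ (2 ^ (k * m)) :=
          pow_le_pow_left₀ hθ2 h1 _
      _ = Real.exp (-(θ / 2 * 2 ^ (k * m))) := by
          rw [← Real.exp_nat_mul]
          congr 1
          push_cast
          ring
  have hfin : ((E * m * 2 ^ (c3 * m) : ℕ) : ℝ) < θ / 2 * 2 ^ (k * m) := by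
    push_cast
    have g1 : (2 : ℝ) ^ m * 2 ^ (c3 * m) ≤ 2 ^ (k * m) := by
      rw [← pow_add]
      apply pow_le_pow_right₀ (by norm_num)
      nlinarith
    have g2 : (0 : ℝ) < 2 ^ (c3 * m) := by positivity
    calc (E : ℝ) * m * 2 ^ (c3 * m) < (θ / 2 * 2 ^ m) * 2 ^ (c3 * m) :=
          mul_lt_mul_of_pos_right hm g2
      _ = θ / 2 * (2 ^ m * 2 ^ (c3 * m)) := by ring
      _ ≤ θ / 2 * 2 ^ (k * m) := by gcongr
  calc _ ≤ Real.exp ((E * m * 2 ^ (c3 * m) : ℕ) : ℝ) * Real.exp (-(θ / 2 * 2 ^ (k * m))) := by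
        apply mul_le_mul (hcast.trans hexp1) hexp2 (by positivity) (by positivity)
    _ = Real.exp (((E * m * 2 ^ (c3 * m) : ℕ) : ℝ) - θ / 2 * 2 ^ (k * m)) := by
        rw [← Real.exp_add]
        congr 1
    _ < 1 := by
        rw [Real.exp_lt_one_iff]
        linarith

end AsymAux

theorem asym (c1 c2 c3 k : ℕ) (hk : 2 * c2 + 3 ≤ k) (hk' : c3 + 1 ≤ k) : ∃ τ m0 : ℕ, ∀ m, m0 ≤ m →
    ∀ t d w : ℕ, t ≤ 2 ^ (c3 * m) → d ≤ 2 ^ (c2 * m) → w ≤ 2 ^ (c1 * m) →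
    (τ + 2) * 2 ^ (k * m - (τ + 2)) ≤ 2 ^ (k * m) ∧
    2 * (t * w * (d + 1) ^ (2 * τ + 1)) ≤ (2 ^ (k * m - (τ + 2))) ^ (τ + 1) ∧
    (2 * (((2 ^ (k * m) * (τ + 2) * 2 ^ (k * m - (τ + 2)) + 1) ^ ((t + 1) * (τ + 1)) *
        ((w + 1) ^ (2 ^ (τ + 2))) ^ t : ℕ) : ℝ)) ^ (2 ^ (τ + 1)) *
      (1 - (2 : ℝ) ^ (τ + 1) / (4 * ((τ : ℝ) + 2)) ^ (τ + 2) / 2) ^ (2 ^ (k * m)) < 1 := by
  set τ := c1 + c3 with hτ
  set θ : ℝ := (2 : ℝ) ^ (τ + 1) / (4 * ((τ : ℝ) + 2)) ^ (τ + 2) with hθ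
  have hθ0 : 0 < θ := by positivity
  have hθ1 : θ ≤ 1 := by
    rw [hθ, div_le_one (by positivity)]
    have hτ0 : (0 : ℝ) ≤ τ := Nat.cast_nonneg τ
    calc (2 : ℝ) ^ (τ + 1) ≤ 2 ^ (τ + 2) := pow_le_pow_right₀ (by norm_num) (by omega)
      _ ≤ (4 * ((τ : ℝ) + 2)) ^ (τ + 2) := pow_le_pow_left₀ (by norm_num) (by linarith) _
  obtain ⟨m1, hm1⟩ := AsymAux.lin_lt_pow
    ((2 ^ (τ + 1) * (1 + (2 * k + 1) * (2 * (τ + 1)) + (c1 + 1) * 2 ^ (τ + 2)) : ℕ) : ℝ)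
    (θ / 2) (by positivity)
  refine ⟨τ, max m1 ((τ + 1) * (τ + 4)), fun m hm t d w ht hd hw => ?_⟩
  have hma : m1 ≤ m := (le_max_left _ _).trans hm
  have hmb : (τ + 1) * (τ + 4) ≤ m := (le_max_right _ _).trans hm
  have hp1 : (τ + 2) * 2 ^ (k * m - (τ + 2)) ≤ 2 ^ (k * m) := by
    apply AsymAux.p1
    have h3 : 3 * m ≤ k * m := Nat.mul_le_mul_right _ (by omega)
    nlinarith
  refine ⟨hp1, ?_, ?_⟩
  · rw [hτ]
    exact AsymAux.p2 c1 c2 c3 k m t d w hk (by rw [← hτ]; exact hmb) ht hd hw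
  · exact AsymAux.p3 c1 c3 k τ m t w hk' (by nlinarith) hp1 ht hw θ hθ0 hθ1 (hm1 m hma)

end Pool.Agent.Lib.Pf91712
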