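import Pool.Agent.Lib.Pf91712.CDefs

/-!
# Biased Babai-Nisan-Szegedy bound

The uniform distribution on `r : Fin (n + 1) → ρ → Fin (q + 1)` (player `i` has the input `r i`); each
`r i x` is `0` with probability `p = 1 / (q + 1)`.

GENERAL LEMMA (prove by induction on `n`). For `S : Finset ρ` let
`f_S r = (-1) ^ #{x ∈ S | ∀ i, r i x = 0}`. For real functions `φ i` (`i : Fin (n + 1)`) on inputs, with
`|φ i r| ≤ 1` and `φ i r` independent of the coordinate `r i`,
`|E_r [f_S r * ∏ i, φ i r]| ^ (2 ^ n) ≤ β_n ^ S.card`, `β_n = 1 - 2 p * (2 p (1 - p)) ^ n`.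
(`E_r` = sum divided by the number of inputs.)
`n = 0`: `φ 0` is constant and `E f_S = (1 - 2 p) ^ S.card` (product over `x`).
Step: write `r = Fin.cons a r'`, `a : ρ → Fin (q + 1)`. As `φ 0` does not depend on `a`, Cauchy-Schwarz gives
`(E_r' [φ 0 * E_a (...)])² ≤ E_r' [(E_a f_S (a, r') ∏_{i ≥ 1} φ i (a, r'))²]
 = E_{a, a'} E_r' [f_S (a, r') f_S (a', r') ∏_{i ≥ 1} φ i (a, r') φ i (a', r')]` and
`f_S (a, r') f_S (a', r') = f_{S'} r'`, `S' = {x ∈ S | exactly one of a x, a' x is 0}`; the functions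
`r' ↦ φ i (a, r') φ i (a', r')` are again bounded by `1` and independent of `r' i`. Take the power `2 ^ (n - 1)`
(Jensen: `(E T) ^ (2 ^ m) ≤ E (T ^ (2 ^ m))` for nonnegative `T`, `inner_le_nnorm_mul_nnorm`/`pow_arith_mean_le_arith_mean_pow`)
and use the induction hypothesis: `≤ E_{a, a'} β_{n-1} ^ card S' = (1 - s + s β_{n-1}) ^ card S`, with
`s = 2 p (1 - p)` (product over `x ∈ S`), and `1 - s + s β_{n-1} = β_n`.

For `bns`: `φ i` = indicator of `C i`, `S = univ`; on `X` all `f_S r = 1`, so `card X / total = E [f_S ∏ φ i]`.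
(`0 ≤ β_n` is clear as `E_{a,a'}` of nonnegative things, or directly from `p ≤ 1/2`.)
-/

set_option autoImplicit false

open Finset

namespace Pool.Agent.Lib.Pf91712

namespace BnsAux

/-- averages -/
noncomputable def av {Ω : Type} [Fintype Ω] (f : Ω → ℝ) : ℝ := (∑ r, f r) / Fintype.card Ω

section av

variable {Ω Ω' : Type} [Fintype Ω] [Fintype Ω']

lemma av_mono {f g : Ω → ℝ} (h : ∀ r, f r ≤ g r) : av f ≤ av g :=
  div_le_div_of_nonneg_right (Finset.sum_le_sum fun r _ => h r) (Nat.cast_nonneg _)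

lemma av_nonneg {f : Ω → ℝ} (h : ∀ r, 0 ≤ f r) : 0 ≤ av f :=
  div_nonneg (Finset.sum_nonneg fun r _ => h r) (Nat.cast_nonneg _)

lemma abs_av_le (f : Ω → ℝ) : |av f| ≤ av fun r => |f r| := by
  unfold av
  rw [abs_div, Nat.abs_cast]
  exact div_le_div_of_nonneg_right (Finset.abs_sum_le_sum_abs _ _) (Nat.cast_nonneg _)

lemma av_const [Nonempty Ω] (c : ℝ) : av (fun _ : Ω => c) = c := by
  unfold av
  rw [Finset.sum_const, nsmul_eq_mul, Finset.card_univ]
  field_simp

lemma av_pow_le [Nonempty Ω] {f : Ω → ℝ} (hf : ∀ r, 0 ≤ f r) (m : ℕ) :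
    av f ^ m ≤ av fun r => f r ^ m := by
  have h := Real.pow_arith_mean_le_arith_mean_pow Finset.univ
    (fun _ : Ω => (Fintype.card Ω : ℝ)⁻¹) f (fun _ _ => by positivity) (by simp)
    (fun r _ => hf r) m
  rw [← Finset.mul_sum, ← Finset.mul_sum] at h
  unfold av
  rw [div_eq_inv_mul, div_eq_inv_mul]
  exact h

lemma av_sq_le [Nonempty Ω] (f : Ω → ℝ) : av f ^ 2 ≤ av fun r => f r ^ 2 := by
  have h1 : av f ^ 2 ≤ (av fun r => |f r|) ^ 2 := by
    rw [← sq_abs (av f)]
    exact pow_le_pow_left₀ (abs_nonneg _) (abs_av_le f) 2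
  refine h1.trans ((av_pow_le (fun r => abs_nonneg _) 2).trans (le_of_eq ?_))
  simp only [sq_abs]

lemma av_comm (f : Ω → Ω' → ℝ) :
    av (fun r => av fun a => f r a) = av fun a => av fun r => f r a := by
  simp only [av, ← Finset.sum_div]
  rw [Finset.sum_comm, div_right_comm]

lemma av_mul_left (c : ℝ) (f : Ω → ℝ) : av (fun r => c * f r) = c * av f := by
  unfold av
  rw [← Finset.mul_sum, mul_div_assoc]

lemma av_sq (f : Ω → ℝ) : av f ^ 2 = av fun a => av fun a' => f a * f a' := by
  simp only [av_mul_left]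
  unfold av
  rw [← Finset.sum_mul]
  ring

lemma av_cons {A : Type} [Fintype A] {n : ℕ} (f : (Fin (n + 1) → A) → ℝ) :
    av f = av fun r' : Fin n → A => av fun a : A => f (Fin.cons a r') := by
  simp only [av, ← Finset.sum_div]
  rw [div_div]
  congr 1
  · rw [← (Fin.consEquiv fun _ : Fin (n + 1) => A).sum_comp, Fintype.sum_prod_type_right]
    rfl
  · rw [Fintype.card_fun, Fintype.card_fun, Fintype.card_fin, Fintype.card_fin]
    push_cast
    ring

lemma av_pi {A ρ : Type} [Fintype A] [Fintype ρ] [DecidableEq ρ] (h : ρ → A → ℝ) :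
    av (fun a : ρ → A => ∏ x, h x (a x)) = ∏ x, av (h x) := by
  unfold av
  rw [Finset.prod_div_distrib, Finset.prod_univ_sum, Fintype.piFinset_univ, Fintype.card_fun]
  simp

lemma av_prod {A ρ : Type} [Fintype A] [Nonempty A] [Fintype ρ] [DecidableEq ρ]
    (S : Finset ρ) (h : ρ → A → ℝ) :
    av (fun a : ρ → A => ∏ x ∈ S, h x (a x)) = ∏ x ∈ S, av (h x) := by
  have h1 : ∀ a : ρ → A, ∏ x ∈ S, h x (a x) = ∏ x, if x ∈ S then h x (a x) else 1 := by
    intro a
    rw [Finset.prod_ite_mem, Finset.univ_inter]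
  simp only [h1]
  rw [av_pi (fun x c => if x ∈ S then h x c else 1)]
  have h2 : ∀ x, av (fun c => if x ∈ S then h x c else 1) = if x ∈ S then av (h x) else 1 := by
    intro x
    by_cases hx : x ∈ S
    · simp only [hx, if_true]
    · simp only [hx, if_false]
      exact av_const 1
  simp only [h2]
  rw [Finset.prod_ite_mem, Finset.univ_inter]

end av

section main

variable {ρ : Type} [Fintype ρ] [DecidableEq ρ] {q : ℕ}

/-- the sign -/
def F (S : Finset ρ) {n : ℕ} (r : Fin n → ρ → Fin (q + 1)) : ℝ :=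
  ∏ x ∈ S, if ∀ i, r i x = 0 then (-1 : ℝ) else 1

lemma F_cons (S : Finset ρ) {n : ℕ} (a : ρ → Fin (q + 1)) (r : Fin n → ρ → Fin (q + 1)) :
    F S (Fin.cons a r : Fin (n + 1) → ρ → Fin (q + 1)) = F (S.filter fun x => a x = 0) r := by
  unfold F
  rw [Finset.prod_filter]
  refine Finset.prod_congr rfl fun x _ => ?_
  by_cases h0 : a x = 0
  · simp [Fin.forall_fin_succ, h0]
  · simp [Fin.forall_fin_succ, h0]

lemma F_mul (S : Finset ρ) {n : ℕ} (a b : ρ → Fin (q + 1)) (r : Fin n → ρ → Fin (q + 1)) :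
    F (S.filter fun x => a x = 0) r * F (S.filter fun x => b x = 0) r =
      F (S.filter fun x => ¬ (a x = 0 ↔ b x = 0)) r := by
  unfold F
  rw [Finset.prod_filter, Finset.prod_filter, Finset.prod_filter, ← Finset.prod_mul_distrib]
  refine Finset.prod_congr rfl fun x _ => ?_
  by_cases h0 : a x = 0 <;> by_cases h1 : b x = 0 <;> by_cases h2 : ∀ i, r i x = 0 <;>
    simp [h0, h1, h2]

/-- the numbers `β_n` -/
noncomputable def bet (q n : ℕ) : ℝ :=
  1 - 2 / ((q : ℝ) + 1) * (2 * (1 / ((q : ℝ) + 1)) * (1 - 1 / ((q : ℝ) + 1))) ^ n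

lemma av_xor (b : ℝ) : av (fun c : Fin (q + 1) => av fun c' : Fin (q + 1) =>
    if ¬ (c = 0 ↔ c' = 0) then b else 1) =
      1 - 2 * (1 / ((q : ℝ) + 1)) * (1 - 1 / ((q : ℝ) + 1)) * (1 - b) := by
  have h0 : (q : ℝ) + 1 ≠ 0 := by positivity
  have hs : ∀ i : Fin q, (Fin.succ i = (0 : Fin (q + 1))) = False := by
    intro i
    simp [Fin.succ_ne_zero]
  unfold av
  simp only [Fin.sum_univ_succ, hs, iff_false, not_true_eq_false, false_iff, iff_true,
    not_false_eq_true, if_true, if_false, Finset.sum_const, Finset.card_univ, Fintype.card_fin,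
    nsmul_eq_mul, not_not]
  push_cast
  field_simp
  ring

lemma bet_succ (q n : ℕ) : bet q (n + 1) =
    1 - 2 * (1 / ((q : ℝ) + 1)) * (1 - 1 / ((q : ℝ) + 1)) * (1 - bet q n) := by
  unfold bet
  ring

lemma av_bet (S : Finset ρ) (b : ℝ) :
    av (fun a : ρ → Fin (q + 1) => av fun a' : ρ → Fin (q + 1) =>
      b ^ (S.filter fun x => ¬ (a x = 0 ↔ a' x = 0)).card) =
      (1 - 2 * (1 / ((q : ℝ) + 1)) * (1 - 1 / ((q : ℝ) + 1)) * (1 - b)) ^ S.card := by
  have h1 : ∀ a a' : ρ → Fin (q + 1), b ^ (S.filter fun x => ¬ (a x = 0 ↔ a' x = 0)).card =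
      ∏ x ∈ S, if ¬ (a x = 0 ↔ a' x = 0) then b else 1 := by
    intro a a'
    rw [← Finset.prod_filter, Finset.prod_const]
  simp only [h1]
  have h2 : ∀ a : ρ → Fin (q + 1), (av fun a' : ρ → Fin (q + 1) =>
      ∏ x ∈ S, if ¬ (a x = 0 ↔ a' x = 0) then b else 1) =
      ∏ x ∈ S, av fun c' : Fin (q + 1) => if ¬ (a x = 0 ↔ c' = 0) then b else 1 := by
    intro a
    exact av_prod S fun x c' => if ¬ (a x = 0 ↔ c' = 0) then b else 1
  simp only [h2]
  rw [av_prod S fun x c => av fun c' : Fin (q + 1) => if ¬ (c = 0 ↔ c' = 0) then b else 1]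
  simp only [av_xor, Finset.prod_const]

theorem main (hq : 1 ≤ q) (n : ℕ) : ∀ (S : Finset ρ)
    (φ : Fin (n + 1) → (Fin (n + 1) → ρ → Fin (q + 1)) → ℝ),
    (∀ i r, |φ i r| ≤ 1) → (∀ i r r', (∀ j, j ≠ i → r j = r' j) → φ i r = φ i r') →
    |av fun r => F S r * ∏ i, φ i r| ^ (2 ^ n) ≤ bet q n ^ S.card := by
  induction n with
  | zero =>
    intro S φ hφ hind
    have h1 : ∀ r, φ 0 r = φ 0 0 := by
      intro r
      exact hind 0 r 0 fun j hj => absurd (Subsingleton.elim (α := Fin 1) j 0) hj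
    have h2 : (av fun r : Fin 1 → ρ → Fin (q + 1) => F S r * ∏ i, φ i r) =
        φ 0 0 * bet q 0 ^ S.card := by
      have h3 : ∀ r : Fin 1 → ρ → Fin (q + 1), F S r * ∏ i, φ i r = φ 0 0 * F S r := by
        intro r
        rw [Fin.prod_univ_one, h1 r, mul_comm]
      simp only [h3]
      rw [av_mul_left]
      congr 1
      rw [av_cons]
      have h4 : ∀ (r' : Fin 0 → ρ → Fin (q + 1)) (a : ρ → Fin (q + 1)),
          F S (Fin.cons a r' : Fin 1 → ρ → Fin (q + 1)) =
            ∏ x ∈ S, if a x = 0 then (-1 : ℝ) else 1 := by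
        intro r' a
        unfold F
        refine Finset.prod_congr rfl fun x _ => ?_
        simp [Fin.forall_fin_succ]
      simp only [h4]
      rw [av_const, av_prod S fun x (c : Fin (q + 1)) => if c = 0 then (-1 : ℝ) else 1,
        Finset.prod_const]
      congr 1
      have h0 : (q : ℝ) + 1 ≠ 0 := by positivity
      unfold av bet
      rw [Fin.sum_univ_succ]
      simp only [Fin.succ_ne_zero, if_true, if_false, Finset.sum_const, Finset.card_univ,
        Fintype.card_fin, nsmul_eq_mul]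
      push_cast
      field_simp
      ring
    have hb : 0 ≤ bet q 0 := by
      unfold bet
      rw [pow_zero, mul_one, sub_nonneg, div_le_one (by positivity)]
      have : (1 : ℝ) ≤ q := by exact_mod_cast hq
      linarith
    rw [h2, pow_zero, pow_one, abs_mul, abs_of_nonneg (pow_nonneg hb _)]
    exact mul_le_of_le_one_left (pow_nonneg hb _) (hφ 0 0)
  | succ n ih =>
    intro S φ hφ hind
    set G : (ρ → Fin (q + 1)) → (Fin (n + 1) → ρ → Fin (q + 1)) → ℝ := fun a r' =>
      F (S.filter fun x => a x = 0) r' * ∏ i : Fin (n + 1), φ i.succ (Fin.cons a r') with hG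
    have h1 : (av fun r => F S r * ∏ i, φ i r) =
        av fun r' : Fin (n + 1) → ρ → Fin (q + 1) =>
          φ 0 (Fin.cons 0 r') * av fun a => G a r' := by
      rw [av_cons]
      congr 1
      funext r'
      rw [← av_mul_left]
      congr 1
      funext a
      rw [F_cons, Fin.prod_univ_succ]
      have : φ 0 (Fin.cons a r') = φ 0 (Fin.cons 0 r') := by
        refine hind 0 _ _ fun j hj => ?_
        obtain ⟨j', rfl⟩ := Fin.exists_succ_eq.2 hj
        simp
      rw [this, hG]
      ring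
    have h2 : |av fun r => F S r * ∏ i, φ i r| ^ 2 ≤
        av fun a => av fun a' => |av fun r' => G a r' * G a' r'| := by
      rw [h1, sq_abs]
      calc (av fun r' : Fin (n + 1) → ρ → Fin (q + 1) =>
            φ 0 (Fin.cons 0 r') * av fun a => G a r') ^ 2 ≤
            av fun r' => (φ 0 (Fin.cons 0 r') * av fun a => G a r') ^ 2 := av_sq_le _
        _ ≤ av fun r' => (av fun a => G a r') ^ 2 := by
            refine av_mono fun r' => ?_
            rw [mul_pow]
            refine mul_le_of_le_one_left (sq_nonneg _) ?_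
            rw [← sq_abs]
            exact pow_le_one₀ (abs_nonneg _) (hφ 0 _)
        _ = av fun r' => av fun a => av fun a' => G a r' * G a' r' := by
            simp only [av_sq]
        _ = av fun a => av fun a' => av fun r' => G a r' * G a' r' := by
            rw [av_comm]
            congr 1
            funext a
            rw [av_comm]
        _ ≤ _ := av_mono fun a => av_mono fun a' => le_abs_self _
    have h3 : ∀ a a', |av fun r' => G a r' * G a' r'| ^ (2 ^ n) ≤
        bet q n ^ (S.filter fun x => ¬ (a x = 0 ↔ a' x = 0)).card := by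
      intro a a'
      have h4 : ∀ r', G a r' * G a' r' = F (S.filter fun x => ¬ (a x = 0 ↔ a' x = 0)) r' *
          ∏ i : Fin (n + 1), (φ i.succ (Fin.cons a r') * φ i.succ (Fin.cons a' r')) := by
        intro r'
        rw [← F_mul, Finset.prod_mul_distrib, hG]
        ring
      simp only [h4]
      refine ih (S.filter fun x => ¬ (a x = 0 ↔ a' x = 0))
        (fun i r' => φ i.succ (Fin.cons a r') * φ i.succ (Fin.cons a' r')) ?_ ?_
      · intro i r'
        rw [abs_mul]
        exact mul_le_one₀ (hφ _ _) (abs_nonneg _) (hφ _ _)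
      · intro i r r' hrr
        have h5 : ∀ b : ρ → Fin (q + 1), φ i.succ (Fin.cons b r) = φ i.succ (Fin.cons b r') := by
          intro b
          refine hind i.succ _ _ fun j hj => ?_
          refine Fin.cases ?_ (fun j' hj' => ?_) j hj
          · intro _
            simp
          · simp only [Fin.cons_succ]
            exact hrr j' fun h => hj' (by rw [h])
        rw [h5 a, h5 a']
    have h6 : 0 ≤ av fun a => av fun a' => |av fun r' => G a r' * G a' r'| :=
      av_nonneg fun a => av_nonneg fun a' => abs_nonneg _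
    calc |av fun r => F S r * ∏ i, φ i r| ^ (2 ^ (n + 1))
        = (|av fun r => F S r * ∏ i, φ i r| ^ 2) ^ (2 ^ n) := by
          rw [← pow_mul, pow_succ, mul_comm]
      _ ≤ (av fun a => av fun a' => |av fun r' => G a r' * G a' r'|) ^ (2 ^ n) :=
          pow_le_pow_left₀ (sq_nonneg _) h2 _
      _ ≤ av fun a => (av fun a' => |av fun r' => G a r' * G a' r'|) ^ (2 ^ n) :=
          av_pow_le (fun a => av_nonneg fun a' => abs_nonneg _) _
      _ ≤ av fun a => av fun a' => |av fun r' => G a r' * G a' r'| ^ (2 ^ n) :=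
          av_mono fun a => av_pow_le (fun a' => abs_nonneg _) _
      _ ≤ av fun a : ρ → Fin (q + 1) => av fun a' : ρ → Fin (q + 1) =>
          bet q n ^ (S.filter fun x => ¬ (a x = 0 ↔ a' x = 0)).card :=
          av_mono fun a => av_mono fun a' => h3 a a'
      _ = bet q (n + 1) ^ S.card := by
          rw [av_bet, bet_succ]

end main

end BnsAux

open BnsAux in
theorem bns {n q : ℕ} (hq : 1 ≤ q) {ρ : Type} [Fintype ρ] [DecidableEq ρ]
    (X : Set (Fin (n + 1) → ρ → Fin (q + 1))) (hX : CI X)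
    (hX0 : ∀ r ∈ X, ∀ x, ∃ i, r i x ≠ 0) :
    ((Nat.card X : ℝ) / Fintype.card (Fin (n + 1) → ρ → Fin (q + 1))) ^ (2 ^ n) ≤
      (1 - 2 / ((q : ℝ) + 1) * (2 * (1 / ((q : ℝ) + 1)) * (1 - 1 / ((q : ℝ) + 1))) ^ n) ^
        Fintype.card ρ := by
  classical
  obtain ⟨C, hC, hXC⟩ := hX
  have h1 := BnsAux.main (ρ := ρ) hq n Finset.univ (fun i r => if r ∈ C i then (1 : ℝ) else 0)
    (fun i r => by by_cases h : r ∈ C i <;> simp [h])
    (fun i r r' h => by
      have := hC i r r' h
      by_cases h2 : r ∈ C i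
      · simp [h2, this.1 h2]
      · simp [h2, mt this.2 h2])
  have h2 : (av fun r : Fin (n + 1) → ρ → Fin (q + 1) =>
      F Finset.univ r * ∏ i, (if r ∈ C i then (1 : ℝ) else 0)) =
      (Nat.card X : ℝ) / Fintype.card (Fin (n + 1) → ρ → Fin (q + 1)) := by
    unfold av
    congr 1
    have h3 : ∀ r : Fin (n + 1) → ρ → Fin (q + 1),
        F Finset.univ r * ∏ i, (if r ∈ C i then (1 : ℝ) else 0) = if r ∈ X then 1 else 0 := by
      intro r
      by_cases hr : r ∈ X
      · have h4 : ∀ i, r ∈ C i := (hXC r).1 hr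
        simp only [h4, hr, if_true, Finset.prod_const_one, mul_one]
        unfold F
        refine Finset.prod_eq_one fun x _ => ?_
        rw [if_neg]
        push Not
        exact hX0 r hr x
      · rw [if_neg hr]
        have h4 : ∃ i, r ∉ C i := by
          by_contra hcon
          push Not at hcon
          exact hr ((hXC r).2 hcon)
        obtain ⟨i, hi⟩ := h4
        rw [Finset.prod_eq_zero (Finset.mem_univ i) (by simp [hi]), mul_zero]
    simp only [h3]
    rw [Finset.sum_boole, Nat.card_eq_fintype_card, Fintype.card_subtype]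
  rw [h2, abs_of_nonneg (by positivity), Finset.card_univ] at h1
  exact h1

end Pool.Agent.Lib.Pf91712
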