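import Pool.Agent.Lib.Pa76659.DT

/-!
# Counting queries, relevant paths, cylinder intersections: definitions

Positions are triples `(x, i, y)`: row `x : ρ`, block (player) `i : Fin κ`, column `y : Fin M`.
An input is a function `ζ` on positions; `ζ e = true` means that there is a zero at the position `e`.
-/

set_option autoImplicit false

open Finset

namespace Pool.Agent.Lib.Pf91712

open Pool.Agent.Lib.Pa76659 (DT)

/-- a counting query: a function of the number of accepting members of a family of `w` decision
trees -/
structure CQ (V : Type) (w : ℕ) where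
  /-- the answer as a function of the number of accepting trees -/
  φ : ℕ → Bool
  /-- the trees -/
  D : Fin w → DT V Bool

variable {V : Type} {w : ℕ}

/-- the number of accepting trees -/
def CQ.num (q : CQ V w) (x : V → Bool) : ℕ := (univ.filter fun z => (q.D z).eval x = true).card

/-- the answer -/
def CQ.val (q : CQ V w) (x : V → Bool) : Bool := q.φ (q.num x)

/-- all trees have depth at most `d` -/
def CQ.Dep (q : CQ V w) (d : ℕ) : Prop := ∀ z, (q.D z).depth ≤ d

section rel

variable {E : Type} [DecidableEq E]

/-- The sets of positions read along the paths of a decision tree which answer zero at the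
positions in `K` and at most `j` further positions. -/
def rel (K : Finset E) (j : ℕ) : DT E Bool → Finset (Finset E)
  | DT.leaf _ => {∅}
  | DT.node e f t =>
      if e ∈ K then (rel K j t).image (insert e)
      else (rel K j f).image (insert e) ∪
        match j with
        | 0 => ∅
        | j + 1 => (rel (insert e K) j t).image (insert e)

variable {κ : ℕ} (blk : E → Fin κ)

/-- the zeros in `K` and those in the blocks `i ∈ I` -/
def restr (ζ : E → Bool) (K : Finset E) (I : Finset (Fin κ)) : E → Bool :=
  fun e => decide (e ∈ K) || (ζ e && decide (blk e ∈ I))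

/-- No player sees more than `τ` unknown zeros on a relevant path of the tree. -/
def Good (ζ : E → Bool) (K : Finset E) (τ : ℕ) (D : DT E Bool) : Prop :=
  ∀ S ∈ rel K τ D, ∀ i : Fin κ,
    (S.filter fun e => ζ e = true ∧ e ∉ K ∧ blk e ≠ i).card ≤ τ

/-- `Good` for all trees of all queries asked on the input `ζ` -/
def GoodP {Q : Type} (cq : Q → CQ E w) (ζ : E → Bool) (K : Finset E) (τ : ℕ) :
    DT Q Bool → Prop
  | DT.leaf _ => True
  | DT.node q f t => (∀ z, Good blk ζ K τ ((cq q).D z)) ∧
      ((cq q).val ζ = true → GoodP cq ζ K τ t) ∧ ((cq q).val ζ = false → GoodP cq ζ K τ f)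

end rel

/-- cylinder intersections -/
def CI {κ : ℕ} {A : Type} (X : Set (Fin κ → A)) : Prop :=
  ∃ C : Fin κ → Set (Fin κ → A), (∀ i r r', (∀ j, j ≠ i → r j = r' j) → (r ∈ C i ↔ r' ∈ C i)) ∧
    ∀ r, r ∈ X ↔ ∀ i, r ∈ C i

/-- the zeros of the input given by `r`, at the columns `y` -/
def zet {κ M q : ℕ} {ρ : Type} (y : ρ → Fin κ → Fin M) (r : Fin κ → ρ → Fin (q + 1)) :
    ρ × Fin κ × Fin M → Bool :=
  fun e => decide (r e.2.1 e.1 ≠ 0 ∧ e.2.2 = y e.1 e.2.1)

/-- the block of a position -/
def bl {κ M : ℕ} {ρ : Type} (e : ρ × Fin κ × Fin M) : Fin κ := e.2.1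

end Pool.Agent.Lib.Pf91712
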