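import Pool.Agent.Lib.Pf91712.CDefs

/-!
# Relevant paths and the alternating sum

`rel_card`, `rel_sub`, `rel_nonempty`: induction on the tree.

CANCELLATION. Fix `K0 = K`, `κ = τ + 2`, and let `Z = {e | ζ e = true, e ∉ K0}`. Claim, by induction on `D`, for all
finite sets `K ⊇ K0`, `W` of positions and `j` with
* every `e ∈ W` has `ζ e = true` and `e ∉ K0`; `K \ K0 ⊆ W`; `j + (K \ K0).card = τ`;
* `∀ S ∈ rel K j D, ∀ i, ((S ∪ W).filter fun e => ζ e = true ∧ e ∉ K0 ∧ blk e ≠ i).card ≤ τ`:
`∑ I with (∀ e ∈ W, (blk e ∈ I ↔ e ∈ K)), (-1) ^ I.card * [D.eval (restr blk ζ K0 I)] = 0`.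
(The theorem is the case `K = K0`, `W = ∅`, `j = τ`.)
* Leaf: `rel K j (leaf b) = {∅}`, so for every `i` at most `τ = κ - 2` elements of `W` lie outside the block `i`;
  hence some block `i₀` contains no element of `W` (otherwise choose one element in each block other than `0`: `κ - 1`
  elements). The involution `I ↦ I ∆ {i₀}` preserves the condition on `I` and changes the sign (`Finset.sum_involution`).
* Node `e f t`, `e ∈ K0`: `restr .. e = true` for all `I`, go to `t`; `rel K j (node e f t) = (rel K j t).image (insert e)`
  and `insert e` does not change the counted elements.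
* `e ∉ K0`, `ζ e = false`: then `e ∉ K`, `restr .. e = false`, go to `f`.
* `e ∉ K0`, `ζ e = true`, `e ∈ K`: then `e ∈ W`, so `blk e ∈ I` for the `I` in the sum and the value goes to `t`.
* `e ∉ K0`, `ζ e = true`, `e ∉ K`, `e ∈ W`: `blk e ∉ I` for the `I` in the sum, go to `f` (`insert e S' ∪ W = S' ∪ W`).
* `e ∉ K0`, `ζ e = true`, `e ∉ K`, `e ∉ W`: split the sum into the `I` with `blk e ∈ I` (go to `t`; induction with `insert e K`,
  `insert e W`, `j - 1`) and the `I` with `blk e ∉ I` (go to `f`; induction with `K`, `insert e W`, `j`). Here `j ≥ 1`: if
  `j = 0`, take `S' ∈ rel K 0 f` (nonempty), `S = insert e S' ∈ rel K 0 (node e f t)`; the `τ + 1 = κ - 1` elements of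
  `insert e (K \ K0) ⊆ S ∪ W` miss some block `i` (pigeonhole), contradiction to the count for this `i`.
-/

set_option autoImplicit false

open Finset

namespace Pool.Agent.Lib.Pf91712

open Pool.Agent.Lib.Pa76659 (DT)

variable {E : Type} [DecidableEq E]

theorem rel_pos {K : Finset E} {j : ℕ} {e : E} {f t : DT E Bool} (h : e ∈ K) :
    rel K j (DT.node e f t) = (rel K j t).image (insert e) := by
  rw [rel.eq_def]
  simp only [h, if_true]

theorem rel_zero {K : Finset E} {e : E} {f t : DT E Bool} (h : e ∉ K) :
    rel K 0 (DT.node e f t) = (rel K 0 f).image (insert e) := by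
  rw [rel.eq_def]
  simp only [h, if_false, Finset.union_empty]

theorem rel_succ {K : Finset E} {j : ℕ} {e : E} {f t : DT E Bool} (h : e ∉ K) :
    rel K (j + 1) (DT.node e f t) = (rel K (j + 1) f).image (insert e) ∪
      (rel (insert e K) j t).image (insert e) := by
  rw [rel.eq_def]
  simp only [h, if_false]

theorem rel_neg_sub {K : Finset E} {j : ℕ} {e : E} {f t : DT E Bool} (h : e ∉ K) :
    (rel K j f).image (insert e) ⊆ rel K j (DT.node e f t) := by
  cases j with
  | zero => rw [rel_zero h]
  | succ j => rw [rel_succ h]; exact Finset.subset_union_left

theorem rel_nonempty (K : Finset E) (j : ℕ) (D : DT E Bool) : (rel K j D).Nonempty := by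
  induction D generalizing K j with
  | leaf b => simp [rel]
  | node e f t ihf iht =>
    by_cases h : e ∈ K
    · rw [rel_pos h]; exact (iht K j).image _
    · exact ((ihf K j).image _).mono (rel_neg_sub h)

theorem rel_card (K : Finset E) (j : ℕ) (D : DT E Bool) : (rel K j D).card ≤ (D.depth + 1) ^ j := by
  induction D generalizing K j with
  | leaf b => simp [rel, DT.depth]
  | node e f t ihf iht =>
    have hf : f.depth ≤ max f.depth t.depth := le_max_left _ _
    have ht : t.depth ≤ max f.depth t.depth := le_max_right _ _
    rw [DT.depth]
    by_cases h : e ∈ K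
    · rw [rel_pos h]
      refine Finset.card_image_le.trans ((iht K j).trans (Nat.pow_le_pow_left ?_ j))
      omega
    · cases j with
      | zero =>
        rw [rel_zero h, pow_zero]
        refine Finset.card_image_le.trans ((ihf K 0).trans ?_)
        simp
      | succ j =>
        rw [rel_succ h]
        refine (Finset.card_union_le _ _).trans ?_
        have h1 : ((rel K (j + 1) f).image (insert e)).card ≤ (max f.depth t.depth + 1) ^ (j + 1) :=
          Finset.card_image_le.trans ((ihf K (j + 1)).trans (Nat.pow_le_pow_left (by omega) _))
        have h2 : ((rel (insert e K) j t).image (insert e)).card ≤ (max f.depth t.depth + 1) ^ j :=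
          Finset.card_image_le.trans ((iht (insert e K) j).trans (Nat.pow_le_pow_left (by omega) _))
        refine (add_le_add h1 h2).trans ?_
        have h3 : (max f.depth t.depth + 1) ^ (j + 1) + (max f.depth t.depth + 1) ^ j =
            (max f.depth t.depth + 1) ^ j * (max f.depth t.depth + 1 + 1) := by ring
        rw [h3, pow_succ]
        exact Nat.mul_le_mul_right _ (Nat.pow_le_pow_left (by omega) _)

theorem rel_sub (K : Finset E) (j : ℕ) (D : DT E Bool) : ∀ S ∈ rel K j D, S.card ≤ D.depth := by
  induction D generalizing K j with
  | leaf b => simp [rel, DT.depth]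
  | node e f t ihf iht =>
    have hf : f.depth ≤ max f.depth t.depth := le_max_left _ _
    have ht : t.depth ≤ max f.depth t.depth := le_max_right _ _
    intro S hS
    rw [DT.depth]
    by_cases h : e ∈ K
    · rw [rel_pos h] at hS
      obtain ⟨S', hS', rfl⟩ := Finset.mem_image.1 hS
      have h1 := iht K j S' hS'
      have h2 := Finset.card_insert_le e S'
      omega
    · cases j with
      | zero =>
        rw [rel_zero h] at hS
        obtain ⟨S', hS', rfl⟩ := Finset.mem_image.1 hS
        have h1 := ihf K 0 S' hS'
        have h2 := Finset.card_insert_le e S'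
        omega
      | succ j =>
        rw [rel_succ h] at hS
        rcases Finset.mem_union.1 hS with hS | hS
        · obtain ⟨S', hS', rfl⟩ := Finset.mem_image.1 hS
          have h1 := ihf K (j + 1) S' hS'
          have h2 := Finset.card_insert_le e S'
          omega
        · obtain ⟨S', hS', rfl⟩ := Finset.mem_image.1 hS
          have h1 := iht (insert e K) j S' hS'
          have h2 := Finset.card_insert_le e S'
          omega

namespace CancelAux

/-- membership in `rel` of a node, the `t` side when `e ∈ K` -/
theorem mem_t {K : Finset E} {j : ℕ} {e : E} {f t : DT E Bool} (h : e ∈ K) {S : Finset E}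
    (hS : S ∈ rel K j t) : insert e S ∈ rel K j (DT.node e f t) := by
  rw [rel_pos h]
  exact Finset.mem_image_of_mem _ hS

theorem mem_f {K : Finset E} {j : ℕ} {e : E} {f t : DT E Bool} (h : e ∉ K) {S : Finset E}
    (hS : S ∈ rel K j f) : insert e S ∈ rel K j (DT.node e f t) := by
  exact rel_neg_sub h (Finset.mem_image_of_mem _ hS)

theorem mem_t' {K : Finset E} {j : ℕ} {e : E} {f t : DT E Bool} (h : e ∉ K) {S : Finset E}
    (hS : S ∈ rel (insert e K) j t) : insert e S ∈ rel K (j + 1) (DT.node e f t) := by
  rw [rel_succ h]
  exact Finset.mem_union_right _ (Finset.mem_image_of_mem _ hS)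

theorem flip_sum {n : ℕ} (i0 : Fin n) (P : Finset (Fin n) → Prop) [DecidablePred P]
    (hP : ∀ I, P (if i0 ∈ I then I.erase i0 else insert i0 I) ↔ P I) (c : ℤ) :
    ∑ I ∈ univ.filter P, (-1 : ℤ) ^ I.card * c = 0 := by
  refine Finset.sum_involution (fun I _ => if i0 ∈ I then I.erase i0 else insert i0 I) ?_ ?_ ?_ ?_
  · intro I _
    by_cases h : i0 ∈ I
    · simp only [h, if_true]
      have h1 := Finset.card_erase_add_one h
      rw [← h1, pow_succ]
      ring
    · simp only [h, if_false]
      rw [Finset.card_insert_of_notMem h, pow_succ]
      ring
  · intro I _ _ h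
    by_cases h0 : i0 ∈ I
    · simp only [h0, if_true] at h
      have : i0 ∈ I.erase i0 := by rw [h]; exact h0
      simp at this
    · simp only [h0, if_false] at h
      exact h0 (by rw [← h]; exact Finset.mem_insert_self _ _)
  · intro I hI
    rw [Finset.mem_filter] at hI ⊢
    exact ⟨Finset.mem_univ _, (hP I).2 hI.2⟩
  · intro I _
    by_cases h : i0 ∈ I
    · simp [h]
    · simp [h]

theorem main {τ : ℕ} (blk : E → Fin (τ + 2)) (ζ : E → Bool) (K0 : Finset E) (D : DT E Bool) :
    ∀ (K W : Finset E) (j : ℕ), K0 ⊆ K → (∀ e ∈ W, ζ e = true ∧ e ∉ K0) → K \ K0 ⊆ W →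
      j + (K \ K0).card = τ →
      (∀ S ∈ rel K j D, ∀ i : Fin (τ + 2),
        ((S ∪ W).filter fun e => ζ e = true ∧ e ∉ K0 ∧ blk e ≠ i).card ≤ τ) →
      ∑ I ∈ univ.filter (fun I : Finset (Fin (τ + 2)) => ∀ e ∈ W, (blk e ∈ I ↔ e ∈ K)),
        (-1 : ℤ) ^ I.card * (if D.eval (restr blk ζ K0 I) = true then 1 else 0) = 0 := by
  induction D with
  | leaf b =>
    intro K W j hK hW hKW hj hS
    have h0 := hS ∅ (by simp [rel])
    simp only [Finset.empty_union] at h0
    have hex : ∃ i0 : Fin (τ + 2), ∀ e ∈ W, blk e ≠ i0 := by
      by_contra hcon
      push Not at hcon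
      have h1 : (univ.erase (0 : Fin (τ + 2))) ⊆
          (W.filter fun e => ζ e = true ∧ e ∉ K0 ∧ blk e ≠ 0).image blk := by
        intro i hi
        obtain ⟨e, he, hei⟩ := hcon i
        rw [Finset.mem_image]
        refine ⟨e, Finset.mem_filter.2 ⟨he, (hW e he).1, (hW e he).2, ?_⟩, hei⟩
        rw [hei]
        exact (Finset.mem_erase.1 hi).1
      have h2 := (Finset.card_le_card h1).trans (Finset.card_image_le.trans (h0 0))
      rw [Finset.card_erase_of_mem (Finset.mem_univ _), Finset.card_univ, Fintype.card_fin] at h2
      omega
    obtain ⟨i0, hi0⟩ := hex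
    refine flip_sum i0 (fun I : Finset (Fin (τ + 2)) => ∀ e ∈ W, (blk e ∈ I ↔ e ∈ K)) (fun I => ?_)
      (if b = true then 1 else 0)
    constructor
    · intro h e he
      rw [← h e he]
      split_ifs with h'
      · simp [hi0 e he]
      · simp [hi0 e he]
    · intro h e he
      rw [← h e he]
      split_ifs with h'
      · simp [hi0 e he]
      · simp [hi0 e he]
  | node e f t ihf iht =>
    intro K W j hK hW hKW hj hS
    have hmono : ∀ (S : Finset E) (i : Fin (τ + 2)),
        ((S ∪ W).filter fun e => ζ e = true ∧ e ∉ K0 ∧ blk e ≠ i).card ≤
        ((insert e S ∪ W).filter fun e => ζ e = true ∧ e ∉ K0 ∧ blk e ≠ i).card := by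
      intro S i
      exact Finset.card_le_card (Finset.filter_subset_filter _
        (Finset.union_subset_union_left (Finset.subset_insert _ _)))
    by_cases h0 : e ∈ K0
    · have hKe := hK h0
      have h1 := iht K W j hK hW hKW hj fun S hSr i =>
        (hmono S i).trans (hS _ (mem_t hKe hSr) i)
      refine Eq.trans ?_ h1
      refine Finset.sum_congr rfl fun I _ => ?_
      have : restr blk ζ K0 I e = true := by simp [restr, h0]
      rw [DT.eval, if_pos this]
    · by_cases hz : ζ e = true
      · by_cases hKe : e ∈ K
        · have heW : e ∈ W := hKW (Finset.mem_sdiff.2 ⟨hKe, h0⟩)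
          have h1 := iht K W j hK hW hKW hj fun S hSr i =>
            (hmono S i).trans (hS _ (mem_t hKe hSr) i)
          refine Eq.trans ?_ h1
          refine Finset.sum_congr rfl fun I hI => ?_
          have hI' := (Finset.mem_filter.1 hI).2 e heW
          have : restr blk ζ K0 I e = true := by simp [restr, hz, hI'.2 hKe]
          rw [DT.eval, if_pos this]
        · by_cases heW : e ∈ W
          · have h1 := ihf K W j hK hW hKW hj fun S hSr i =>
              (hmono S i).trans (hS _ (mem_f hKe hSr) i)
            refine Eq.trans ?_ h1
            refine Finset.sum_congr rfl fun I hI => ?_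
            have hI' := (Finset.mem_filter.1 hI).2 e heW
            have hb : blk e ∉ I := fun hb => hKe (hI'.1 hb)
            have : ¬ restr blk ζ K0 I e = true := by simp [restr, h0, hb]
            rw [DT.eval, if_neg this]
          · have hW' : ∀ e' ∈ insert e W, ζ e' = true ∧ e' ∉ K0 := by
              intro e' he'
              rcases Finset.mem_insert.1 he' with rfl | he'
              · exact ⟨hz, h0⟩
              · exact hW e' he'
            have hun : ∀ S : Finset E, S ∪ insert e W = insert e S ∪ W := by
              intro S
              ext a
              simp only [Finset.mem_union, Finset.mem_insert]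
              tauto
            have h1 := ihf K (insert e W) j hK hW' (hKW.trans (Finset.subset_insert _ _)) hj
              fun S hSr i => by
                rw [hun]
                exact hS _ (mem_f hKe hSr) i
            have hcard : (insert e K \ K0).card = (K \ K0).card + 1 := by
              rw [Finset.insert_sdiff_of_notMem _ h0, Finset.card_insert_of_notMem]
              intro hh
              exact hKe (Finset.mem_sdiff.1 hh).1
            cases j with
            | zero =>
              exfalso
              obtain ⟨S', hS'⟩ := rel_nonempty K 0 f
              have hS2 := hS _ (mem_f hKe hS')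
              have hex : ∃ i : Fin (τ + 2), i ∉ (insert e K \ K0).image blk := by
                by_contra hcon
                push Not at hcon
                have h3 : (univ : Finset (Fin (τ + 2))) ⊆ (insert e K \ K0).image blk :=
                  fun i _ => hcon i
                have h4 := (Finset.card_le_card h3).trans Finset.card_image_le
                rw [Finset.card_univ, Fintype.card_fin] at h4
                omega
              obtain ⟨i, hi⟩ := hex
              have h5 : insert e K \ K0 ⊆
                  (insert e S' ∪ W).filter fun e => ζ e = true ∧ e ∉ K0 ∧ blk e ≠ i := by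
                intro a ha
                have ha' := Finset.mem_sdiff.1 ha
                have hb : blk a ≠ i := fun hb => hi (Finset.mem_image.2 ⟨a, ha, hb⟩)
                rcases Finset.mem_insert.1 ha'.1 with rfl | haK
                · exact Finset.mem_filter.2 ⟨Finset.mem_union_left _ (Finset.mem_insert_self _ _),
                    hz, h0, hb⟩
                · have haW := hKW (Finset.mem_sdiff.2 ⟨haK, ha'.2⟩)
                  exact Finset.mem_filter.2 ⟨Finset.mem_union_right _ haW, (hW a haW).1, ha'.2, hb⟩
              have h6 := (Finset.card_le_card h5).trans (hS2 i)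
              omega
            | succ j =>
              have h2 := iht (insert e K) (insert e W) j (hK.trans (Finset.subset_insert _ _)) hW'
                (by
                  intro a ha
                  have ha' := Finset.mem_sdiff.1 ha
                  rcases Finset.mem_insert.1 ha'.1 with rfl | haK
                  · exact Finset.mem_insert_self _ _
                  · exact Finset.mem_insert_of_mem (hKW (Finset.mem_sdiff.2 ⟨haK, ha'.2⟩)))
                (by omega)
                fun S hSr i => by
                  rw [hun]
                  exact hS _ (mem_t' hKe hSr) i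
              rw [← Finset.sum_filter_add_sum_filter_not _
                (fun I : Finset (Fin (τ + 2)) => blk e ∈ I)]
              rw [Finset.filter_filter, Finset.filter_filter]
              have e1 : ∑ I ∈ univ.filter (fun I : Finset (Fin (τ + 2)) =>
                  (∀ e ∈ W, (blk e ∈ I ↔ e ∈ K)) ∧ blk e ∈ I),
                  (-1 : ℤ) ^ I.card *
                    (if (DT.node e f t).eval (restr blk ζ K0 I) = true then 1 else 0) = 0 := by
                refine Eq.trans ?_ h2
                refine Finset.sum_congr ?_ fun I hI => ?_
                · ext I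
                  simp only [Finset.mem_filter, Finset.mem_univ, true_and, Finset.mem_insert,
                    forall_eq_or_imp, true_or, iff_true]
                  constructor
                  · rintro ⟨h3, h4⟩
                    refine ⟨h4, fun a ha => ?_⟩
                    rw [h3 a ha]
                    constructor
                    · exact Or.inr
                    · rintro (rfl | h5)
                      · exact absurd ha heW
                      · exact h5
                  · rintro ⟨h4, h3⟩
                    refine ⟨fun a ha => ?_, h4⟩
                    rw [h3 a ha]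
                    constructor
                    · rintro (rfl | h5)
                      · exact absurd ha heW
                      · exact h5
                    · exact Or.inr
                · have hI' := ((Finset.mem_filter.1 hI).2 e (Finset.mem_insert_self _ _)).2
                    (Finset.mem_insert_self _ _)
                  have : restr blk ζ K0 I e = true := by
                    simp [restr, hz, hI']
                  rw [DT.eval, if_pos this]
              have e2 : ∑ I ∈ univ.filter (fun I : Finset (Fin (τ + 2)) =>
                  (∀ e ∈ W, (blk e ∈ I ↔ e ∈ K)) ∧ ¬ blk e ∈ I),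
                  (-1 : ℤ) ^ I.card *
                    (if (DT.node e f t).eval (restr blk ζ K0 I) = true then 1 else 0) = 0 := by
                refine Eq.trans ?_ h1
                refine Finset.sum_congr ?_ fun I hI => ?_
                · ext I
                  simp only [Finset.mem_filter, Finset.mem_univ, true_and, Finset.mem_insert,
                    forall_eq_or_imp, hKe, iff_false]
                  tauto
                · have hI' : blk e ∉ I := fun hh =>
                    hKe (((Finset.mem_filter.1 hI).2 e (Finset.mem_insert_self _ _)).1 hh)
                  have : ¬ restr blk ζ K0 I e = true := by simp [restr, h0, hI']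
                  rw [DT.eval, if_neg this]
              rw [e1, e2, add_zero]
      · have hKe : e ∉ K := by
          intro hh
          exact hz (hW e (hKW (Finset.mem_sdiff.2 ⟨hh, h0⟩))).1
        have h1 := ihf K W j hK hW hKW hj fun S hSr i =>
          (hmono S i).trans (hS _ (mem_f hKe hSr) i)
        refine Eq.trans ?_ h1
        refine Finset.sum_congr rfl fun I _ => ?_
        have : ¬ restr blk ζ K0 I e = true := by simp [restr, h0, hz]
        rw [DT.eval, if_neg this]

end CancelAux

theorem cancel {τ : ℕ} (blk : E → Fin (τ + 2)) (ζ : E → Bool) (K : Finset E) (D : DT E Bool)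
    (h : Good blk ζ K τ D) :
    ∑ I : Finset (Fin (τ + 2)),
      (-1 : ℤ) ^ I.card * (if D.eval (restr blk ζ K I) = true then 1 else 0) = 0 := by
  have h1 := CancelAux.main blk ζ K D K ∅ τ (Finset.Subset.refl _) (by simp) (by simp) (by simp)
    (by
      intro S hS i
      rw [Finset.union_empty]
      exact h S hS i)
  simpa using h1

end Pool.Agent.Lib.Pf91712
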