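import Pool.Agent.Lib.Pf91712.Cancel

/-!
# Covering by cylinder intersections

CLOSURE OF `CI` (`κ = τ + 2 ≥ 2`): a set independent of one coordinate is `CI`; (arbitrary indexed) intersections of `CI`
sets are `CI`.

For fixed `y`, `K` the following sets of `r` are `CI`: `{r | ∀ e ∈ K, zet y r e = true}` (each condition only depends on
the coordinate `e.2.1`, so it is independent of any other coordinate); `{r | Good bl (zet y r) K τ D}` (the condition for
`S`, `i` is independent of the coordinate `i`); `{r | q.num (restr bl (zet y r) K I) = b}` for `I ≠ univ` (independent of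
every coordinate outside `I`).

Induction on `T` (with `t`). Leaf `b'`: the list `[{r | ∀ e ∈ K, zet y r e = true}]` or `[]`. Node `p f g`: for
`β : Finset (Fin (τ + 2)) → Fin (w + 1)` let `Y_β` be the set of `r` with `∀ z, Good .. ((cq p).D z)` and
`(cq p).num (restr bl (zet y r) K I) = β I` for all `I ≠ univ` (`num ≤ w` as there are `w` trees). If moreover
`∀ e ∈ K, zet y r e = true`, then `restr bl (zet y r) K univ = zet y r` and `cancel` (summed over `z`) gives
`(cq p).num (zet y r) = n_β` where `(-1) ^ (τ + 2) * n_β = - ∑ I ≠ univ, (-1) ^ I.card * β I` depends only on `β`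
(define `n_β` as the `toNat` of that integer). So on `Y_β` the answer is `(cq p).φ n_β`. The list for the node: for all `β`,
the sets `Y_β ∩ X'`, `X'` in the list of `g` (answer `true`) or of `f` (answer `false`).
Length `≤ (w + 1) ^ (2 ^ (τ + 2)) * (...) ^ (t - 1)`.
-/

set_option autoImplicit false

open Finset

namespace Pool.Agent.Lib.Pf91712

open Pool.Agent.Lib.Pa76659 (DT)

namespace CoverAux

section ci

variable {κ : ℕ} {A : Type}

/-- independent of one coordinate -/
def Ind (i0 : Fin κ) (X : Set (Fin κ → A)) : Prop :=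
  ∀ r r' : Fin κ → A, (∀ j, j ≠ i0 → r j = r' j) → (r ∈ X ↔ r' ∈ X)

theorem ci_ind {i0 : Fin κ} {X : Set (Fin κ → A)} (h : Ind i0 X) : CI X := by
  classical
  refine ⟨fun i => if i = i0 then X else Set.univ, fun i r r' hr => ?_, fun r => ?_⟩
  · by_cases hi : i = i0
    · subst hi
      simp only [if_true]
      exact h r r' hr
    · simp [hi]
  · constructor
    · intro hr i
      by_cases hi : i = i0
      · simp only [hi, if_true]; exact hr
      · simp [hi]
    · intro hr
      have := hr i0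
      simpa using this

theorem ci_iInter {ι : Type} {X : ι → Set (Fin κ → A)} (h : ∀ a, CI (X a)) :
    CI {r | ∀ a, r ∈ X a} := by
  choose C hC hX using h
  refine ⟨fun i => {r | ∀ a, r ∈ C a i}, fun i r r' hr => ?_, fun r => ?_⟩
  · exact forall_congr' fun a => hC a i r r' hr
  · constructor
    · intro hr i a
      exact (hX a r).1 (hr a) i
    · intro hr a
      exact (hX a r).2 fun i => hr i a

theorem ci_inter {X Y : Set (Fin κ → A)} (hX : CI X) (hY : CI Y) : CI (X ∩ Y) := by
  obtain ⟨C, hC, hX⟩ := hX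
  obtain ⟨C', hC', hY⟩ := hY
  refine ⟨fun i => C i ∩ C' i, fun i r r' hr => ?_, fun r => ?_⟩
  · exact and_congr (hC i r r' hr) (hC' i r r' hr)
  · constructor
    · intro hr i
      exact ⟨(hX r).1 hr.1 i, (hY r).1 hr.2 i⟩
    · intro hr
      exact ⟨(hX r).2 fun i => (hr i).1, (hY r).2 fun i => (hr i).2⟩

/-- a condition for each member of a set -/
theorem ci_forall {ι : Type} {P : ι → Prop} {R : ι → (Fin κ → A) → Prop}
    (h : ∀ a, P a → CI {r | R a r}) : CI {r | ∀ a, P a → R a r} := by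
  have h1 := ci_iInter (X := fun a : {a // P a} => {r : Fin κ → A | R a.1 r}) fun a => h a.1 a.2
  have : {r : Fin κ → A | ∀ a : {a // P a}, r ∈ {r | R a.1 r}} = {r | ∀ a, P a → R a r} := by
    ext r
    exact ⟨fun hr a ha => hr ⟨a, ha⟩, fun hr a => hr a.1 a.2⟩
  rwa [this] at h1

end ci

variable {τ M q w : ℕ} {ρ : Type} [Fintype ρ] [DecidableEq ρ]
  (y : ρ → Fin (τ + 2) → Fin M) (K : Finset (ρ × Fin (τ + 2) × Fin M))

theorem zet_congr {i0 : Fin (τ + 2)} {r r' : Fin (τ + 2) → ρ → Fin (q + 1)}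
    (h : ∀ j, j ≠ i0 → r j = r' j) (e : ρ × Fin (τ + 2) × Fin M) (he : bl e ≠ i0) :
    zet y r e = zet y r' e := by
  unfold zet
  have := h e.2.1 he
  rw [this]

theorem ci_K : CI {r : Fin (τ + 2) → ρ → Fin (q + 1) | ∀ e, e ∈ K → zet y r e = true} := by
  refine ci_forall fun e _ => ?_
  obtain ⟨i0, hi0⟩ : ∃ i0 : Fin (τ + 2), bl e ≠ i0 := by
    by_cases h : bl e = 0
    · exact ⟨1, by rw [h]; exact Fin.zero_ne_one⟩
    · exact ⟨0, h⟩
  refine ci_ind (i0 := i0) fun r r' hr => ?_
  show zet y r e = true ↔ zet y r' e = true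
  rw [zet_congr y hr e hi0]

theorem ci_good (D : DT (ρ × Fin (τ + 2) × Fin M) Bool) :
    CI {r : Fin (τ + 2) → ρ → Fin (q + 1) | Good bl (zet y r) K τ D} := by
  have h1 : CI {r : Fin (τ + 2) → ρ → Fin (q + 1) | ∀ a : Finset (ρ × Fin (τ + 2) × Fin M) × Fin (τ + 2),
      a.1 ∈ rel K τ D →
      (a.1.filter fun e => zet y r e = true ∧ e ∉ K ∧ bl e ≠ a.2).card ≤ τ} := by
    refine ci_forall fun a _ => ?_
    refine ci_ind (i0 := a.2) fun r r' hr => ?_
    show (a.1.filter fun e => zet y r e = true ∧ e ∉ K ∧ bl e ≠ a.2).card ≤ τ ↔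
      (a.1.filter fun e => zet y r' e = true ∧ e ∉ K ∧ bl e ≠ a.2).card ≤ τ
    have : (a.1.filter fun e => zet y r e = true ∧ e ∉ K ∧ bl e ≠ a.2) =
        (a.1.filter fun e => zet y r' e = true ∧ e ∉ K ∧ bl e ≠ a.2) := by
      refine Finset.filter_congr fun e _ => ?_
      constructor
      · rintro ⟨h1, h2, h3⟩
        exact ⟨by rw [← zet_congr y hr e h3]; exact h1, h2, h3⟩
      · rintro ⟨h1, h2, h3⟩
        exact ⟨by rw [zet_congr y hr e h3]; exact h1, h2, h3⟩
    rw [this]
  have h2 : {r : Fin (τ + 2) → ρ → Fin (q + 1) | Good bl (zet y r) K τ D} =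
      {r | ∀ a : Finset (ρ × Fin (τ + 2) × Fin M) × Fin (τ + 2), a.1 ∈ rel K τ D →
      (a.1.filter fun e => zet y r e = true ∧ e ∉ K ∧ bl e ≠ a.2).card ≤ τ} := by
    ext r
    exact ⟨fun h a ha => h a.1 ha a.2, fun h S hS i => h (S, i) hS⟩
  rw [h2]
  exact h1

theorem ci_num (c : CQ (ρ × Fin (τ + 2) × Fin M) w) {I : Finset (Fin (τ + 2))} (hI : I ≠ univ)
    (n : ℕ) : CI {r : Fin (τ + 2) → ρ → Fin (q + 1) | c.num (restr bl (zet y r) K I) = n} := by
  obtain ⟨i0, hi0⟩ : ∃ i0, i0 ∉ I := by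
    by_contra hcon
    push Not at hcon
    exact hI (Finset.eq_univ_iff_forall.2 hcon)
  refine ci_ind (i0 := i0) fun r r' hr => ?_
  show c.num (restr bl (zet y r) K I) = n ↔ c.num (restr bl (zet y r') K I) = n
  have : restr bl (zet y r) K I = restr bl (zet y r') K I := by
    funext e
    unfold restr
    by_cases he : bl e ∈ I
    · have : bl e ≠ i0 := fun h => hi0 (h ▸ he)
      rw [zet_congr y hr e this]
    · simp [he]
  rw [this]

theorem num_le {V : Type} (c : CQ V w) (x : V → Bool) : c.num x ≤ w := by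
  unfold CQ.num
  refine (Finset.card_filter_le _ _).trans ?_
  simp

/-- the value determined by the values on the proper subsets -/
noncomputable def nb (β : Finset (Fin (τ + 2)) → Fin (w + 1)) : ℕ :=
  ((-1 : ℤ) ^ (τ + 2) * -(∑ I ∈ (univ : Finset (Finset (Fin (τ + 2)))).erase univ,
    (-1 : ℤ) ^ I.card * ((β I : ℕ) : ℤ))).toNat

theorem restr_univ {κ : ℕ} {E : Type} [DecidableEq E] (blk : E → Fin κ) (ζ : E → Bool)
    (K : Finset E) (h : ∀ e ∈ K, ζ e = true) : restr blk ζ K univ = ζ := by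
  funext e
  unfold restr
  by_cases he : e ∈ K
  · simp [he, h e he]
  · simp [he]

theorem num_eq {E : Type} [DecidableEq E] (blk : E → Fin (τ + 2)) (c : CQ E w) (ζ : E → Bool)
    (K : Finset E) (hK : ∀ e ∈ K, ζ e = true) (hg : ∀ z, Good blk ζ K τ (c.D z))
    (β : Finset (Fin (τ + 2)) → Fin (w + 1))
    (hβ : ∀ I, I ≠ univ → c.num (restr blk ζ K I) = β I) : c.num ζ = nb β := by
  have h1 : ∑ I : Finset (Fin (τ + 2)), (-1 : ℤ) ^ I.card * (c.num (restr blk ζ K I) : ℤ) = 0 := by
    have h2 : ∀ I : Finset (Fin (τ + 2)), (-1 : ℤ) ^ I.card * (c.num (restr blk ζ K I) : ℤ) =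
        ∑ z : Fin w, (-1 : ℤ) ^ I.card *
          (if (c.D z).eval (restr blk ζ K I) = true then 1 else 0) := by
      intro I
      rw [← Finset.mul_sum]
      congr 1
      unfold CQ.num
      rw [Finset.card_filter]
      push_cast
      rfl
    rw [Finset.sum_congr rfl fun I _ => h2 I, Finset.sum_comm]
    exact Finset.sum_eq_zero fun z _ => cancel blk ζ K (c.D z) (hg z)
  rw [← Finset.add_sum_erase _ _ (Finset.mem_univ (univ : Finset (Fin (τ + 2)))),
    restr_univ blk ζ K hK, Finset.card_univ, Fintype.card_fin] at h1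
  have h3 : ∑ I ∈ (univ : Finset (Finset (Fin (τ + 2)))).erase univ,
      (-1 : ℤ) ^ I.card * (c.num (restr blk ζ K I) : ℤ) =
      ∑ I ∈ (univ : Finset (Finset (Fin (τ + 2)))).erase univ,
      (-1 : ℤ) ^ I.card * ((β I : ℕ) : ℤ) := by
    refine Finset.sum_congr rfl fun I hI => ?_
    rw [hβ I (Finset.mem_erase.1 hI).1]
  rw [h3] at h1
  have h4 : (-1 : ℤ) ^ (τ + 2) * -(∑ I ∈ (univ : Finset (Finset (Fin (τ + 2)))).erase univ,
      (-1 : ℤ) ^ I.card * ((β I : ℕ) : ℤ)) = (c.num ζ : ℤ) := by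
    have h5 : (-1 : ℤ) ^ (τ + 2) * (-1 : ℤ) ^ (τ + 2) = 1 := by
      rw [← mul_pow]
      simp
    have h6 : -(∑ I ∈ (univ : Finset (Finset (Fin (τ + 2)))).erase univ,
      (-1 : ℤ) ^ I.card * ((β I : ℕ) : ℤ)) = (-1 : ℤ) ^ (τ + 2) * (c.num ζ : ℤ) := by
      linarith
    rw [h6, ← mul_assoc, h5, one_mul]
  unfold nb
  rw [h4]
  simp

theorem length_flatMap_le {α β : Type} (l : List α) (f : α → List β) (n : ℕ)
    (h : ∀ a ∈ l, (f a).length ≤ n) : (l.flatMap f).length ≤ l.length * n := by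
  induction l with
  | nil => simp
  | cons a l ih =>
    rw [List.flatMap_cons, List.length_append, List.length_cons, add_mul, one_mul, add_comm]
    exact add_le_add (ih fun b hb => h b (List.mem_cons_of_mem _ hb))
      (h a (List.mem_cons_self))

end CoverAux

open CoverAux

theorem cover {τ M q w : ℕ} {ρ : Type} [Fintype ρ] [DecidableEq ρ] {Q : Type}
    (cq : Q → CQ (ρ × Fin (τ + 2) × Fin M) w) (y : ρ → Fin (τ + 2) → Fin M)
    (K : Finset (ρ × Fin (τ + 2) × Fin M)) (t : ℕ) (T : DT Q Bool) (hT : T.depth ≤ t) (b : Bool) :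
    ∃ 𝒳 : List (Set (Fin (τ + 2) → ρ → Fin (q + 1))),
      𝒳.length ≤ ((w + 1) ^ (2 ^ (τ + 2))) ^ t ∧ (∀ X ∈ 𝒳, CI X) ∧
      ∀ r, (∃ X ∈ 𝒳, r ∈ X) ↔ ((∀ e ∈ K, zet y r e = true) ∧ GoodP bl cq (zet y r) K τ T ∧
        T.eval (fun p => (cq p).val (zet y r)) = b) := by
  classical
  induction T generalizing t with
  | leaf b' =>
    by_cases hb : b' = b
    · refine ⟨[{r | ∀ e, e ∈ K → zet y r e = true}], ?_, ?_, ?_⟩
      · rw [List.length_singleton]
        exact Nat.one_le_pow _ _ (Nat.pow_pos (Nat.succ_pos w))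
      · intro X hX
        rw [List.mem_singleton.1 hX]
        exact ci_K y K
      · intro r
        simp only [List.mem_singleton, exists_eq_left, Set.mem_ofPred_eq, GoodP, DT.eval, hb,
          and_true]
    · refine ⟨[], by simp, by simp, ?_⟩
      intro r
      simp [GoodP, DT.eval, hb]
  | node p f g ihf ihg =>
    rw [DT.depth] at hT
    obtain ⟨t, rfl⟩ : ∃ s, t = s + 1 := ⟨t - 1, by omega⟩
    have hf : f.depth ≤ t := by have := le_max_left f.depth g.depth; omega
    have hg : g.depth ≤ t := by have := le_max_right f.depth g.depth; omega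
    obtain ⟨Xf, hfl, hfc, hfr⟩ := ihf t hf
    obtain ⟨Xg, hgl, hgc, hgr⟩ := ihg t hg
    set Y : (Finset (Fin (τ + 2)) → Fin (w + 1)) → Set (Fin (τ + 2) → ρ → Fin (q + 1)) :=
      fun β => {r | ∀ z, Good bl (zet y r) K τ ((cq p).D z)} ∩
        {r | ∀ I, I ≠ univ → (cq p).num (restr bl (zet y r) K I) = β I} with hY
    have hYc : ∀ β, CI (Y β) := by
      intro β
      refine ci_inter (ci_iInter fun z => ci_good y K ((cq p).D z)) (ci_forall fun I hI => ?_)
      exact ci_num y K (cq p) hI _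
    refine ⟨(univ : Finset (Finset (Fin (τ + 2)) → Fin (w + 1))).toList.flatMap fun β =>
      (if (cq p).φ (nb β) = true then Xg else Xf).map fun X => Y β ∩ X, ?_, ?_, ?_⟩
    · refine (length_flatMap_le _ _ (((w + 1) ^ (2 ^ (τ + 2))) ^ t) ?_).trans ?_
      · intro β _
        rw [List.length_map]
        split_ifs
        · exact hgl
        · exact hfl
      · rw [Finset.length_toList, Finset.card_univ, Fintype.card_fun, Fintype.card_fin,
          Fintype.card_finset, Fintype.card_fin, pow_succ (((w + 1) ^ (2 ^ (τ + 2)))) t, mul_comm]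
    · intro X hX
      obtain ⟨β, _, hX⟩ := List.mem_flatMap.1 hX
      obtain ⟨X', hX', rfl⟩ := List.mem_map.1 hX
      refine ci_inter (hYc β) ?_
      split_ifs at hX' with h
      · exact hgc X' hX'
      · exact hfc X' hX'
    · intro r
      constructor
      · rintro ⟨X, hX, hr⟩
        obtain ⟨β, _, hX⟩ := List.mem_flatMap.1 hX
        obtain ⟨X', hX', rfl⟩ := List.mem_map.1 hX
        obtain ⟨⟨hr1, hr2⟩, hr3⟩ := hr
        split_ifs at hX' with h
        · obtain ⟨h1, h2, h3⟩ := (hgr r).1 ⟨X', hX', hr3⟩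
          have hn := num_eq bl (cq p) (zet y r) K h1 hr1 β hr2
          have hv : (cq p).val (zet y r) = true := by
            unfold CQ.val
            rw [hn]
            exact h
          refine ⟨h1, ?_, ?_⟩
          · rw [GoodP]
            exact ⟨hr1, fun _ => h2, fun h' => by rw [hv] at h'; exact absurd h' (by decide)⟩
          · rw [DT.eval, if_pos hv]
            exact h3
        · obtain ⟨h1, h2, h3⟩ := (hfr r).1 ⟨X', hX', hr3⟩
          have hn := num_eq bl (cq p) (zet y r) K h1 hr1 β hr2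
          have hv : (cq p).val (zet y r) = false := by
            unfold CQ.val
            rw [hn]
            simpa using h
          refine ⟨h1, ?_, ?_⟩
          · rw [GoodP]
            exact ⟨hr1, fun h' => by rw [hv] at h'; exact absurd h' (by decide), fun _ => h2⟩
          · rw [DT.eval, if_neg (by rw [hv]; decide)]
            exact h3
      · rintro ⟨h1, h2, h3⟩
        rw [GoodP] at h2
        obtain ⟨h2, h4, h5⟩ := h2
        set β : Finset (Fin (τ + 2)) → Fin (w + 1) := fun I =>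
          ⟨(cq p).num (restr bl (zet y r) K I), Nat.lt_succ_of_le (num_le _ _)⟩ with hβ
        have hYr : r ∈ Y β := ⟨h2, fun I _ => rfl⟩
        have hn := num_eq bl (cq p) (zet y r) K h1 h2 β fun I _ => rfl
        by_cases hv : (cq p).val (zet y r) = true
        · rw [DT.eval, if_pos hv] at h3
          obtain ⟨X', hX', hr⟩ := (hgr r).2 ⟨h1, h4 hv, h3⟩
          refine ⟨Y β ∩ X', List.mem_flatMap.2 ⟨β, by simp, List.mem_map.2 ⟨X', ?_, rfl⟩⟩, hYr, hr⟩
          have hv' := hv
          unfold CQ.val at hv'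
          rw [hn] at hv'
          rw [if_pos hv']
          exact hX'
        · rw [DT.eval, if_neg hv] at h3
          obtain ⟨X', hX', hr⟩ := (hfr r).2 ⟨h1, h5 (by simpa using hv), h3⟩
          refine ⟨Y β ∩ X', List.mem_flatMap.2 ⟨β, by simp, List.mem_map.2 ⟨X', ?_, rfl⟩⟩, hYr, hr⟩
          have hv' := hv
          unfold CQ.val at hv'
          rw [hn] at hv'
          rw [if_neg hv']
          exact hX'

end Pool.Agent.Lib.Pf91712
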