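import Pool.Agent.Lib.Pf91712.Cancel

/-!
# Exposing few zeros suffices for most positions of the zeros

`κ = τ + 2`. Fix `r`. For a list `Λ` of queries let `𝒦_0 = {∅}` and
`𝒦_{s+1} = {K ∪ B | K ∈ 𝒦_s, B ⊆ S \ K, B.card = τ + 1, S ∈ rel K τ ((cq p).D z), p ∈ Λ, z : Fin w}`.
Then `card 𝒦_s ≤ (Λ.length * w * (d + 1) ^ τ * (d + 1) ^ (τ + 1)) ^ s` (`rel_card`, `rel_sub`,
`Nat.choose_le_pow`) and its members have `s * (τ + 1)` elements.

(1) If for `y` no `K` as required exists, let `Λ` be the list of the queries asked by `T` on the input `zet y r` (a path of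
`T`, of length `≤ t`; `T` has at most `2 ^ t` paths). Then for all `s ≤ t + 1` some `K ∈ 𝒦_s` has `zet y r e = true` for all
`e ∈ K`: given such a `K` for `s ≤ t`, `GoodP` fails for `K`, so some `p ∈ Λ`, `z`, `S ∈ rel K τ ((cq p).D z)`, `i` have
`τ + 1 ≤ card {e ∈ S | zet y r e = true ∧ e ∉ K ∧ bl e ≠ i}`; choose `B` in this set with `τ + 1` elements.
(2) For a finite set `K` of positions, `#{y | ∀ e ∈ K, e.2.2 = y e.1 e.2.1} * M ^ K.card ≤ #{all y}` (zero if `K` contains two
positions with the same row and block; otherwise equality).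
(3) Hence `#{bad y} ≤ 2 ^ t * W ^ (t + 1) * #{all y} / M ^ ((t + 1) (τ + 1))` with `W = t * w * (d + 1) ^ (2 τ + 1)`, and
`2 W ≤ M ^ (τ + 1)` gives `2 * #{bad y} ≤ #{all y}`.
-/

set_option autoImplicit false

open Finset

namespace Pool.Agent.Lib.Pf91712

open Pool.Agent.Lib.Pa76659 (DT)

namespace GreedyAux

section paths

variable {Q : Type}

/-- the lists of queries along the paths of a tree -/
def paths : DT Q Bool → List (List Q)
  | DT.leaf _ => [[]]
  | DT.node q f t => (paths f).map (fun l => q :: l) ++ (paths t).map (fun l => q :: l)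

theorem paths_length (T : DT Q Bool) : (paths T).length ≤ 2 ^ T.depth := by
  induction T with
  | leaf b => simp [paths, DT.depth]
  | node q f t ihf iht =>
    simp only [paths, DT.depth, List.length_append, List.length_map]
    have h1 : 2 ^ f.depth ≤ 2 ^ max f.depth t.depth :=
      Nat.pow_le_pow_right (by norm_num) (le_max_left _ _)
    have h2 : 2 ^ t.depth ≤ 2 ^ max f.depth t.depth :=
      Nat.pow_le_pow_right (by norm_num) (le_max_right _ _)
    rw [pow_succ]
    omega

theorem paths_mem_length (T : DT Q Bool) : ∀ l ∈ paths T, l.length ≤ T.depth := by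
  induction T with
  | leaf b => simp [paths, DT.depth]
  | node q f t ihf iht =>
    intro l hl
    simp only [paths, List.mem_append, List.mem_map] at hl
    rw [DT.depth]
    rcases hl with ⟨l', hl', rfl⟩ | ⟨l', hl', rfl⟩
    · have := ihf l' hl'
      have := le_max_left f.depth t.depth
      rw [List.length_cons]
      omega
    · have := iht l' hl'
      have := le_max_right f.depth t.depth
      rw [List.length_cons]
      omega

variable {E : Type} [DecidableEq E] {w κ : ℕ}

theorem exists_path (blk : E → Fin κ) (cq : Q → CQ E w) (ζ : E → Bool) (τ : ℕ) (T : DT Q Bool) :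
    ∃ l ∈ paths T, ∀ K : Finset E,
      (∀ q ∈ l, ∀ z, Good blk ζ K τ ((cq q).D z)) → GoodP blk cq ζ K τ T := by
  induction T with
  | leaf b => exact ⟨[], by simp [paths], fun K _ => trivial⟩
  | node q f t ihf iht =>
    cases hv : (cq q).val ζ with
    | true =>
      obtain ⟨l, hl, h⟩ := iht
      refine ⟨q :: l, ?_, fun K hK => ?_⟩
      · simp only [paths, List.mem_append, List.mem_map]
        exact Or.inr ⟨l, hl, rfl⟩
      · refine ⟨fun z => hK q (List.mem_cons_self ..) z, fun _ => ?_, fun hc => ?_⟩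
        · exact h K fun q' hq' => hK q' (List.mem_cons_of_mem _ hq')
        · rw [hv] at hc
          exact absurd hc (by simp)
    | false =>
      obtain ⟨l, hl, h⟩ := ihf
      refine ⟨q :: l, ?_, fun K hK => ?_⟩
      · simp only [paths, List.mem_append, List.mem_map]
        exact Or.inl ⟨l, hl, rfl⟩
      · refine ⟨fun z => hK q (List.mem_cons_self ..) z, fun hc => ?_, fun _ => ?_⟩
        · rw [hv] at hc
          exact absurd hc (by simp)
        · exact h K fun q' hq' => hK q' (List.mem_cons_of_mem _ hq')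

/-- the candidates for the exposed sets -/
noncomputable def KK (cq : Q → CQ E w) (τ : ℕ) (l : List Q) : ℕ → Finset (Finset E)
  | 0 => {∅}
  | s + 1 => (KK cq τ l s).biUnion fun K =>
      (univ : Finset (Fin l.length × Fin w)).biUnion fun p =>
        (rel K τ ((cq (l.get p.1)).D p.2)).biUnion fun S =>
          ((S \ K).powersetCard (τ + 1)).image fun B => K ∪ B

theorem KK_card (cq : Q → CQ E w) {d : ℕ} (hd : ∀ p, (cq p).Dep d) (τ : ℕ) (l : List Q)
    {t : ℕ} (hl : l.length ≤ t) (s : ℕ) :
    (KK cq τ l s).card ≤ (t * w * (d + 1) ^ (2 * τ + 1)) ^ s := by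
  induction s with
  | zero => simp [KK]
  | succ s ih =>
    rw [KK, pow_succ]
    refine (Finset.card_biUnion_le_card_mul _ _ (t * w * (d + 1) ^ (2 * τ + 1)) ?_).trans
      (Nat.mul_le_mul_right _ ih)
    intro K _
    have h1 : (univ : Finset (Fin l.length × Fin w)).card = l.length * w := by
      rw [Finset.card_univ, Fintype.card_prod, Fintype.card_fin, Fintype.card_fin]
    refine (Finset.card_biUnion_le_card_mul _ _ ((d + 1) ^ (2 * τ + 1)) ?_).trans ?_
    · intro p _
      have h2 : (rel K τ ((cq (l.get p.1)).D p.2)).card ≤ (d + 1) ^ τ :=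
        (rel_card K τ _).trans (Nat.pow_le_pow_left (by have := hd (l.get p.1) p.2; omega) τ)
      refine (Finset.card_biUnion_le_card_mul _ _ ((d + 1) ^ (τ + 1)) ?_).trans ?_
      · intro S hS
        refine Finset.card_image_le.trans ?_
        rw [Finset.card_powersetCard]
        refine (Nat.choose_le_pow _ _).trans (Nat.pow_le_pow_left ?_ _)
        have h3 := rel_sub K τ _ S hS
        have h4 := hd (l.get p.1) p.2
        have h5 := Finset.card_le_card (Finset.sdiff_subset (s := S) (t := K))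
        omega
      · refine (Nat.mul_le_mul_right _ h2).trans (le_of_eq ?_)
        rw [← pow_add]
        congr 1
        ring
    · rw [h1]
      exact Nat.mul_le_mul_right _ (Nat.mul_le_mul_right _ hl)

theorem KK_mem_card (cq : Q → CQ E w) (τ : ℕ) (l : List Q) (s : ℕ) :
    ∀ K ∈ KK cq τ l s, K.card = s * (τ + 1) := by
  induction s with
  | zero => simp [KK]
  | succ s ih =>
    intro K hK
    simp only [KK, Finset.mem_biUnion, Finset.mem_image, Finset.mem_powersetCard] at hK
    obtain ⟨K', hK', p, _, S, _, B, ⟨hB, hBc⟩, rfl⟩ := hK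
    rw [Finset.card_union_of_disjoint, ih K' hK', hBc]
    · ring
    · rw [Finset.disjoint_left]
      intro a ha hb
      exact (Finset.mem_sdiff.1 (hB hb)).2 ha

/-- the greedy process -/
theorem process (blk : E → Fin κ) (cq : Q → CQ E w) (ζ : E → Bool) (τ : ℕ) (T : DT Q Bool)
    {t : ℕ} (hbad : ¬ ∃ K : Finset E, K.card ≤ (t + 1) * (τ + 1) ∧ (∀ e ∈ K, ζ e = true) ∧
      GoodP blk cq ζ K τ T) :
    ∃ l ∈ paths T, ∃ K ∈ KK cq τ l (t + 1), ∀ e ∈ K, ζ e = true := by
  obtain ⟨l, hl, h⟩ := exists_path blk cq ζ τ T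
  refine ⟨l, hl, ?_⟩
  have key : ∀ s, s ≤ t + 1 → ∃ K ∈ KK cq τ l s, ∀ e ∈ K, ζ e = true := by
    intro s
    induction s with
    | zero => exact fun _ => ⟨∅, by simp [KK], by simp⟩
    | succ s ih =>
      intro hs
      obtain ⟨K, hK, hKz⟩ := ih (by omega)
      have hcard := KK_mem_card cq τ l s K hK
      have hng : ¬ GoodP blk cq ζ K τ T := fun hg =>
        hbad ⟨K, by rw [hcard]; exact Nat.mul_le_mul_right _ (by omega), hKz, hg⟩
      have h1 : ¬ ∀ q ∈ l, ∀ z, Good blk ζ K τ ((cq q).D z) := fun h2 => hng (h K h2)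
      push Not at h1
      obtain ⟨q, hq, z, hz⟩ := h1
      unfold Good at hz
      push Not at hz
      obtain ⟨S, hS, i, hi⟩ := hz
      obtain ⟨B, hB, hBc⟩ := Finset.exists_subset_card_eq (Nat.succ_le_of_lt hi)
      obtain ⟨j, hj⟩ := List.mem_iff_get.1 hq
      refine ⟨K ∪ B, ?_, ?_⟩
      · simp only [KK, Finset.mem_biUnion, Finset.mem_image, Finset.mem_powersetCard]
        refine ⟨K, hK, (j, z), Finset.mem_univ _, S, ?_, B, ⟨?_, hBc⟩, rfl⟩
        · simp only
          rw [hj]
          exact hS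
        · intro a ha
          have := Finset.mem_filter.1 (hB ha)
          exact Finset.mem_sdiff.2 ⟨this.1, this.2.2.1⟩
      · intro e he
        rcases Finset.mem_union.1 he with he | he
        · exact hKz e he
        · exact (Finset.mem_filter.1 (hB he)).2.1
  exact key (t + 1) le_rfl

end paths

/-- the number of column choices compatible with prescribed zeros -/
theorem count {κ M : ℕ} {ρ : Type} [Fintype ρ] [DecidableEq ρ]
    (K : Finset (ρ × Fin κ × Fin M)) :
    ((univ : Finset (ρ → Fin κ → Fin M)).filter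
      fun y => ∀ e ∈ K, e.2.2 = y e.1 e.2.1).card * M ^ K.card ≤
      Fintype.card (ρ → Fin κ → Fin M) := by
  classical
  rcases Finset.eq_empty_or_nonempty ((univ : Finset (ρ → Fin κ → Fin M)).filter
      fun y => ∀ e ∈ K, e.2.2 = y e.1 e.2.1) with h0 | ⟨y0, hy0⟩
  · rw [h0]
    simp
  · have hy0' := (Finset.mem_filter.1 hy0).2
    set P : Finset (ρ × Fin κ) := K.image fun e => (e.1, e.2.1) with hP
    have hPK : P.card = K.card := by
      rw [hP]
      refine Finset.card_image_of_injOn ?_
      rintro ⟨x, i, c⟩ h ⟨x', i', c'⟩ h' heq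
      have h1 := hy0' _ h
      have h2 := hy0' _ h'
      simp only [Prod.mk.injEq] at heq
      obtain ⟨rfl, rfl⟩ := heq
      simp only at h1 h2
      rw [h1, h2]
    rw [← hPK]
    have hcard : Fintype.card (({p // p ∈ P}) → Fin M) = M ^ P.card := by
      rw [Fintype.card_fun, Fintype.card_fin, Fintype.card_coe]
    rw [← hcard, ← Finset.card_univ (α := {p // p ∈ P} → Fin M), ← Finset.card_product,
      ← Finset.card_univ (α := ρ → Fin κ → Fin M)]
    refine Finset.card_le_card_of_injOn
      (fun yg x i => if h : (x, i) ∈ P then yg.2 ⟨(x, i), h⟩ else yg.1 x i)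
      (fun _ _ => Finset.mem_univ _) ?_
    rintro ⟨y, g⟩ h ⟨y', g'⟩ h' heq
    rw [Finset.mem_coe, Finset.mem_product, Finset.mem_filter] at h h'
    have hy := h.1.2
    have hy' := h'.1.2
    simp only at hy hy' heq
    have hg : g = g' := by
      funext p
      have h1 := congrFun (congrFun heq p.1.1) p.1.2
      have hp : (p.1.1, p.1.2) ∈ P := p.2
      simp only [hp, dif_pos] at h1
      exact h1
    have hyy : y = y' := by
      funext x i
      by_cases hxi : (x, i) ∈ P
      · obtain ⟨e, he, hexi⟩ := Finset.mem_image.1 hxi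
        simp only [Prod.mk.injEq] at hexi
        have h1 := hy e he
        have h2 := hy' e he
        rw [hexi.1, hexi.2] at h1 h2
        rw [← h1, ← h2]
      · have h1 := congrFun (congrFun heq x) i
        simp only [hxi, dif_neg, not_false_eq_true] at h1
        exact h1
    rw [hg, hyy]

end GreedyAux

open GreedyAux

theorem greedy {τ M q w d t : ℕ} {ρ : Type} [Fintype ρ] [DecidableEq ρ] {Q : Type}
    (cq : Q → CQ (ρ × Fin (τ + 2) × Fin M) w) (hd : ∀ p, (cq p).Dep d) (T : DT Q Bool)
    (hT : T.depth ≤ t) (hA : 2 * (t * w * (d + 1) ^ (2 * τ + 1)) ≤ M ^ (τ + 1))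
    (r : Fin (τ + 2) → ρ → Fin (q + 1)) :
    2 * Nat.card {y : ρ → Fin (τ + 2) → Fin M // ¬ ∃ K : Finset (ρ × Fin (τ + 2) × Fin M),
      K.card ≤ (t + 1) * (τ + 1) ∧ (∀ e ∈ K, zet y r e = true) ∧
        GoodP bl cq (zet y r) K τ T} ≤ Fintype.card (ρ → Fin (τ + 2) → Fin M) := by
  classical
  set W := t * w * (d + 1) ^ (2 * τ + 1) with hW
  set A := Fintype.card (ρ → Fin (τ + 2) → Fin M) with hAdef
  set bad : Finset (ρ → Fin (τ + 2) → Fin M) := univ.filter fun y =>
    ¬ ∃ K : Finset (ρ × Fin (τ + 2) × Fin M),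
      K.card ≤ (t + 1) * (τ + 1) ∧ (∀ e ∈ K, zet y r e = true) ∧
        GoodP bl cq (zet y r) K τ T with hbad
  have hcard : Nat.card {y : ρ → Fin (τ + 2) → Fin M //
      ¬ ∃ K : Finset (ρ × Fin (τ + 2) × Fin M),
      K.card ≤ (t + 1) * (τ + 1) ∧ (∀ e ∈ K, zet y r e = true) ∧
        GoodP bl cq (zet y r) K τ T} = bad.card := by
    rw [Nat.card_eq_fintype_card, Fintype.card_subtype]
  rw [hcard]
  set cov : Finset (ρ → Fin (τ + 2) → Fin M) := (paths T).toFinset.biUnion fun l =>
    (KK cq τ l (t + 1)).biUnion fun K => univ.filter fun y => ∀ e ∈ K, e.2.2 = y e.1 e.2.1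
    with hcov
  have hsub : bad ⊆ cov := by
    intro y hy
    obtain ⟨l, hl, K, hK, hKz⟩ := process bl cq (zet y r) τ T (t := t) (Finset.mem_filter.1 hy).2
    rw [hcov, Finset.mem_biUnion]
    refine ⟨l, List.mem_toFinset.2 hl, Finset.mem_biUnion.2 ⟨K, hK, ?_⟩⟩
    refine Finset.mem_filter.2 ⟨Finset.mem_univ _, fun e he => ?_⟩
    have h1 := hKz e he
    unfold zet at h1
    exact (of_decide_eq_true h1).2
  have hlen : (paths T).toFinset.card ≤ 2 ^ t :=
    (List.toFinset_card_le _).trans ((paths_length T).trans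
      (Nat.pow_le_pow_right (by norm_num) hT))
  have hKKc : ∀ l ∈ (paths T).toFinset, (KK cq τ l (t + 1)).card ≤ W ^ (t + 1) := by
    intro l hl
    exact KK_card cq hd τ l ((paths_mem_length T l (List.mem_toFinset.1 hl)).trans hT) (t + 1)
  rcases Nat.eq_zero_or_pos W with hW0 | hW0
  · have hempty : cov = ∅ := by
      refine Finset.eq_empty_of_forall_notMem fun y hy => ?_
      rw [hcov] at hy
      obtain ⟨l, hl, hy'⟩ := Finset.mem_biUnion.1 hy
      have h1 := hKKc l hl
      rw [hW0, zero_pow (Nat.succ_ne_zero _)] at h1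
      have h2 : KK cq τ l (t + 1) = ∅ := Finset.card_eq_zero.1 (Nat.le_zero.1 h1)
      rw [h2, Finset.biUnion_empty] at hy'
      exact absurd hy' (Finset.notMem_empty _)
    have h3 : bad = ∅ := Finset.subset_empty.1 (hempty ▸ hsub)
    rw [h3]
    simp
  · have hcovb : cov.card * M ^ ((t + 1) * (τ + 1)) ≤ 2 ^ t * (W ^ (t + 1) * A) := by
      have h1 : cov.card ≤ ∑ l ∈ (paths T).toFinset, ∑ K ∈ KK cq τ l (t + 1),
          ((univ : Finset (ρ → Fin (τ + 2) → Fin M)).filter
            fun y => ∀ e ∈ K, e.2.2 = y e.1 e.2.1).card :=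
        Finset.card_biUnion_le.trans (Finset.sum_le_sum fun l _ => Finset.card_biUnion_le)
      refine (Nat.mul_le_mul_right _ h1).trans ?_
      rw [Finset.sum_mul]
      refine (Finset.sum_le_card_nsmul _ _ (W ^ (t + 1) * A) ?_).trans ?_
      · intro l hl
        rw [Finset.sum_mul]
        refine (Finset.sum_le_card_nsmul _ _ A ?_).trans ?_
        · intro K hK
          have h2 := count K
          rw [KK_mem_card cq τ l (t + 1) K hK] at h2
          exact h2
        · rw [smul_eq_mul]
          exact Nat.mul_le_mul_right _ (hKKc l hl)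
      · rw [smul_eq_mul]
        exact Nat.mul_le_mul_right _ hlen
    have hbc : bad.card ≤ cov.card := Finset.card_le_card hsub
    have h2W : (2 * W) ^ (t + 1) ≤ M ^ ((t + 1) * (τ + 1)) := by
      rw [mul_comm (t + 1), pow_mul]
      exact Nat.pow_le_pow_left hA _
    have h3 : bad.card * (2 * W) ^ (t + 1) ≤ 2 ^ t * (W ^ (t + 1) * A) :=
      (Nat.mul_le_mul hbc h2W).trans hcovb
    have h4 : (2 * bad.card) * (2 ^ t * W ^ (t + 1)) ≤ A * (2 ^ t * W ^ (t + 1)) := by
      calc (2 * bad.card) * (2 ^ t * W ^ (t + 1)) = bad.card * (2 * W) ^ (t + 1) := by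
            rw [mul_pow 2 W (t + 1), pow_succ 2 t]
            ring
        _ ≤ 2 ^ t * (W ^ (t + 1) * A) := h3
        _ = A * (2 ^ t * W ^ (t + 1)) := by ring
    exact Nat.le_of_mul_le_mul_right h4 (by positivity)

end Pool.Agent.Lib.Pf91712
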