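import Pool.Agent.Lib.Pf91712.Bns
import Pool.Agent.Lib.Pf91712.Cover
import Pool.Agent.Lib.Pf91712.Greedy

/-!
# The lower bound for adaptive counting queries

`κ = τ + 2`, `q + 1 = 4 κ`, `N = card ρ`. Suppose the conclusion fails: `T` is correct on all `ζ`. Let `R0` be the set of
`r : Fin κ → ρ → Fin (4 κ)` with `∀ x, ∃ i, r i x ≠ 0`. For `r ∈ R0` and all `y`, the input `zet y r` has a zero in every
row, so `T` answers `false`. By `greedy` (for every `r ∈ R0`), at least half of the `y` have a set `K` with at most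
`(t + 1) (τ + 1)` elements, `∀ e ∈ K, zet y r e`, and `GoodP`. Double counting gives one `y` for which at least half of
the `r ∈ R0` have such a `K`. For each `K` (at most `(card E + 1) ^ ((t + 1) (τ + 1))` of them, `card E = N κ M`:
a nonempty set with at most `s` elements is the image of a map `Fin s → Option E`), `cover` with `b = false` gives a list
of at most `((w + 1) ^ (2 ^ κ)) ^ t` sets `X`, all `CI`, and all contained in `R0` (by correctness of `T`:
`T.eval .. = false` for `zet y r` means that no row is free of zeros, i.e. `∀ x, ∃ i, r i x ≠ 0`, as `0 < M` —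
`y` exists and `κ > 0`; if `ρ` is empty then `T` would have to answer false, no problem: `hB` then says `(2 U) ^ .. < 1`,
impossible). So
`card R0 / 2 ≤ U * max_X card X`, `U = (N κ M + 1) ^ ((t + 1) (τ + 1)) * ((w + 1) ^ (2 ^ κ)) ^ t`.
With `P = card R0 / total = (1 - (4 κ)^(-κ)) ^ N` (product over `x`) and `bns` (`n = τ + 1`, `2 ^ n = 2 ^ (κ - 1)`):
`P ^ (2 ^ (κ - 1)) ≤ (2 U) ^ (2 ^ (κ - 1)) * β ^ N`. Put `θ = 2 ^ (κ - 1) / (4 κ) ^ κ`. Bernoulli:
`(1 - (4 κ)^(-κ)) ^ (2 ^ (κ - 1)) ≥ 1 - θ > 0`; and `β = 1 - 2 θ (1 - 1/(4 κ)) ^ (κ - 1) ≤ 1 - 3 θ / 2`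
(Bernoulli: `(1 - 1/(4κ)) ^ (κ - 1) ≥ 3/4`) `≤ (1 - θ) (1 - θ / 2)`. Hence
`(1 - θ) ^ N ≤ (2 U) ^ (2 ^ (κ - 1)) (1 - θ) ^ N (1 - θ / 2) ^ N`, contradicting `hB`.
-/

set_option autoImplicit false

open Finset

namespace Pool.Agent.Lib.Pf91712

open Pool.Agent.Lib.Pa76659 (DT)

theorem card_small {E : Type} [Fintype E] [DecidableEq E] (s : ℕ) :
    (univ.filter fun K : Finset E => K.card ≤ s).card ≤ (Fintype.card E + 1) ^ s := by
  induction s with
  | zero =>
    have : (univ.filter fun K : Finset E => K.card ≤ 0) ⊆ {∅} := by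
      intro K hK
      simp only [mem_filter, mem_univ, true_and, Nat.le_zero, card_eq_zero] at hK
      simp [hK]
    simpa using card_le_card this
  | succ s ih =>
    have : (univ.filter fun K : Finset E => K.card ≤ s + 1) ⊆
        ((univ : Finset (Option E)) ×ˢ (univ.filter fun K : Finset E => K.card ≤ s)).image
          (fun p => p.1.elim p.2 (fun e => insert e p.2)) := by
      intro K hK
      simp only [mem_filter, mem_univ, true_and] at hK
      rw [mem_image]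
      rcases K.eq_empty_or_nonempty with h | ⟨e, he⟩
      · refine ⟨(none, ∅), by simp, ?_⟩
        simp [h]
      · refine ⟨(some e, K.erase e), ?_, ?_⟩
        · simp only [mem_product, mem_univ, mem_filter, true_and]
          rw [card_erase_of_mem he]
          omega
        · simp [insert_erase he]
    refine (card_le_card this).trans (card_image_le.trans ?_)
    rw [card_product, card_univ, Fintype.card_option, pow_succ, mul_comm]
    exact Nat.mul_le_mul_right _ ih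

theorem card_R0 {κ q : ℕ} {ρ : Type} [Fintype ρ] [DecidableEq ρ] :
    (univ.filter fun r : Fin κ → ρ → Fin (q + 1) => ∀ x, ∃ i, r i x ≠ 0).card =
      ((q + 1) ^ κ - 1) ^ Fintype.card ρ := by
  have h1 : (univ.filter fun r : Fin κ → ρ → Fin (q + 1) => ∀ x, ∃ i, r i x ≠ 0).card =
      (Fintype.piFinset fun _ : ρ => univ.filter fun f : Fin κ → Fin (q + 1) => ∃ i, f i ≠ 0).card := by
    apply card_bij (fun r _ => fun x i => r i x)
    · intro r hr
      simp only [mem_filter, mem_univ, true_and] at hr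
      simp only [Fintype.mem_piFinset, mem_filter, mem_univ, true_and]
      exact hr
    · intro r _ r' _ h
      funext i x
      exact congrFun (congrFun h x) i
    · intro f hf
      simp only [Fintype.mem_piFinset, mem_filter, mem_univ, true_and] at hf
      exact ⟨fun i x => f x i, by simpa using hf, rfl⟩
  rw [h1, Fintype.card_piFinset, prod_const, card_univ]
  congr 1
  have h2 : (univ.filter fun f : Fin κ → Fin (q + 1) => ∃ i, f i ≠ 0) = univ.erase 0 := by
    ext f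
    simp only [mem_filter, mem_univ, true_and, mem_erase, and_true, ne_eq]
    rw [funext_iff]
    simp
  rw [h2, card_erase_of_mem (mem_univ _), card_univ, Fintype.card_fun]
  simp

theorem numC (τ N : ℕ) (U : ℝ) (hU : 0 ≤ U)
    (h1 : (1 - 1 / (4 * ((τ : ℝ) + 2)) ^ (τ + 2)) ^ (N * 2 ^ (τ + 1)) ≤
      (2 * U) ^ (2 ^ (τ + 1)) * (1 - 2 / (4 * ((τ : ℝ) + 2)) *
        (2 * (1 / (4 * ((τ : ℝ) + 2))) * (1 - 1 / (4 * ((τ : ℝ) + 2)))) ^ (τ + 1)) ^ N)
    (hB : (2 * U) ^ (2 ^ (τ + 1)) *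
      (1 - (2 : ℝ) ^ (τ + 1) / (4 * ((τ : ℝ) + 2)) ^ (τ + 2) / 2) ^ N < 1) : False := by
  set k : ℝ := (τ : ℝ) + 2 with hk
  have hk2 : 2 ≤ k := by rw [hk]; have : (0 : ℝ) ≤ τ := Nat.cast_nonneg _; linarith
  set θ : ℝ := (2 : ℝ) ^ (τ + 1) / (4 * k) ^ (τ + 2) with hθ
  have hθ0 : 0 < θ := by positivity
  have hθ1 : θ < 1 := by
    rw [hθ, div_lt_one (by positivity)]
    calc (2 : ℝ) ^ (τ + 1) < 8 ^ (τ + 1) := pow_lt_pow_left₀ (by norm_num) (by norm_num) (by omega)
      _ ≤ (4 * k) ^ (τ + 1) := pow_le_pow_left₀ (by norm_num) (by linarith) _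
      _ ≤ (4 * k) ^ (τ + 2) := pow_le_pow_right₀ (by linarith) (by omega)
  have hb : (1 : ℝ) - 2 ^ (τ + 1) * (1 / (4 * k) ^ (τ + 2)) ≤
      (1 - 1 / (4 * k) ^ (τ + 2)) ^ (2 ^ (τ + 1)) := by
    have h2 : (-2 : ℝ) ≤ -(1 / (4 * k) ^ (τ + 2)) := by
      have : 1 / (4 * k) ^ (τ + 2) ≤ 1 := by
        rw [div_le_one (by positivity)]
        exact one_le_pow₀ (by linarith)
      linarith
    have := one_add_mul_le_pow h2 (2 ^ (τ + 1))
    calc _ = 1 + ((2 ^ (τ + 1) : ℕ) : ℝ) * (-(1 / (4 * k) ^ (τ + 2))) := by push_cast; ring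
      _ ≤ _ := this
      _ = _ := by rw [← sub_eq_add_neg]
  have hb' : 1 - θ ≤ (1 - 1 / (4 * k) ^ (τ + 2)) ^ (2 ^ (τ + 1)) := by
    refine le_trans (le_of_eq ?_) hb
    rw [hθ]; ring
  have hβ : (1 - 2 / (4 * k) * (2 * (1 / (4 * k)) * (1 - 1 / (4 * k))) ^ (τ + 1)) ≤
      (1 - θ) * (1 - θ / 2) := by
    have h3 : (3 / 4 : ℝ) ≤ (1 - 1 / (4 * k)) ^ (τ + 1) := by
      have h4 : (-2 : ℝ) ≤ -(1 / (4 * k)) := by
        have : 1 / (4 * k) ≤ 1 := by
          rw [div_le_one (by positivity)]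
          linarith
        linarith
      have := one_add_mul_le_pow h4 (τ + 1)
      have h5 : (τ + 1 : ℝ) * (1 / (4 * k)) ≤ 1 / 4 := by
        rw [mul_one_div, div_le_div_iff₀ (by positivity) (by norm_num), hk]
        nlinarith
      push_cast at this
      rw [← sub_eq_add_neg] at this
      linarith
    have h6 : 2 / (4 * k) * (2 * (1 / (4 * k)) * (1 - 1 / (4 * k))) ^ (τ + 1) =
        2 * θ * (1 - 1 / (4 * k)) ^ (τ + 1) := by
      rw [hθ, mul_pow, mul_pow, one_div_pow]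
      field_simp
      try ring
    rw [h6]
    nlinarith [sq_nonneg θ]
  have hβ0 : 0 ≤ (1 - 2 / (4 * k) * (2 * (1 / (4 * k)) * (1 - 1 / (4 * k))) ^ (τ + 1)) := by
    have h7 : 2 / (4 * k) ≤ 1 := by rw [div_le_one (by positivity)]; linarith
    have h8 : 0 ≤ 1 - 1 / (4 * k) := by
      have : 1 / (4 * k) ≤ 1 := by
        rw [div_le_one (by positivity)]
        linarith
      linarith
    have h9 : (2 * (1 / (4 * k)) * (1 - 1 / (4 * k))) ^ (τ + 1) ≤ 1 := by
      apply pow_le_one₀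
      · exact mul_nonneg (by positivity) h8
      · have : 2 * (1 / (4 * k)) ≤ 1 := by
          rw [mul_one_div, div_le_one (by positivity)]; linarith
        have h10 : 1 - 1 / (4 * k) ≤ 1 := by
          have : 0 ≤ 1 / (4 * k) := by positivity
          linarith
        exact mul_le_one₀ this h8 h10
    have := mul_le_one₀ h7 (pow_nonneg (mul_nonneg (by positivity) h8) _) h9
    linarith
  have h11 : (1 - θ) ^ N ≤ (2 * U) ^ (2 ^ (τ + 1)) * ((1 - θ) * (1 - θ / 2)) ^ N := by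
    calc (1 - θ) ^ N ≤ ((1 - 1 / (4 * k) ^ (τ + 2)) ^ (2 ^ (τ + 1))) ^ N :=
          pow_le_pow_left₀ (by linarith) hb' _
      _ = (1 - 1 / (4 * k) ^ (τ + 2)) ^ (N * 2 ^ (τ + 1)) := by rw [← pow_mul, mul_comm N]
      _ ≤ _ := h1
      _ ≤ _ := by
        apply mul_le_mul_of_nonneg_left (pow_le_pow_left₀ hβ0 hβ _) (by positivity)
  rw [mul_pow (1 - θ) (1 - θ / 2)] at h11
  have h12 : 0 < (1 - θ) ^ N := pow_pos (by linarith) _
  have h13 : (1 - θ) ^ N ≤ (1 - θ) ^ N * ((2 * U) ^ (2 ^ (τ + 1)) * (1 - θ / 2) ^ N) := by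
    calc _ ≤ _ := h11
      _ = _ := by ring
  have h14 := mul_lt_mul_of_pos_left hB h12
  linarith

theorem core {τ M w d t : ℕ} {ρ : Type} [Fintype ρ] [DecidableEq ρ] {Q : Type}
    (cq : Q → CQ (ρ × Fin (τ + 2) × Fin M) w) (hd : ∀ p, (cq p).Dep d) (T : DT Q Bool)
    (hT : T.depth ≤ t) (hM : 0 < M)
    (hA : 2 * (t * w * (d + 1) ^ (2 * τ + 1)) ≤ M ^ (τ + 1))
    (hB : (2 * (((Fintype.card ρ * (τ + 2) * M + 1) ^ ((t + 1) * (τ + 1)) *
        ((w + 1) ^ (2 ^ (τ + 2))) ^ t : ℕ) : ℝ)) ^ (2 ^ (τ + 1)) *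
      (1 - (2 : ℝ) ^ (τ + 1) / (4 * ((τ : ℝ) + 2)) ^ (τ + 2) / 2) ^ Fintype.card ρ < 1) :
    ∃ ζ : ρ × Fin (τ + 2) × Fin M → Bool,
      ¬ (T.eval (fun p => (cq p).val ζ) = true ↔ ∃ x, ∀ i c, ζ (x, i, c) = false) := by
  classical
  by_contra hcon
  push Not at hcon
  set q : ℕ := 4 * τ + 7 with hq
  set s : ℕ := (t + 1) * (τ + 1) with hs
  set R0 : Finset (Fin (τ + 2) → ρ → Fin (q + 1)) := univ.filter fun r => ∀ x, ∃ i, r i x ≠ 0
    with hR0
  let G : (ρ → Fin (τ + 2) → Fin M) → (Fin (τ + 2) → ρ → Fin (q + 1)) → Prop := fun y r =>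
    ∃ K : Finset (ρ × Fin (τ + 2) × Fin M),
      K.card ≤ s ∧ (∀ e ∈ K, zet y r e = true) ∧ GoodP bl cq (zet y r) K τ T
  have hgr : ∀ r, 2 * (univ.filter fun y => ¬ G y r).card ≤
      Fintype.card (ρ → Fin (τ + 2) → Fin M) := by
    intro r
    have := greedy cq hd T hT hA r
    rw [Nat.card_eq_fintype_card, Fintype.card_subtype] at this
    exact this
  have : Nonempty (Fin M) := ⟨⟨0, hM⟩⟩
  -- one good `y`
  obtain ⟨y, hy⟩ : ∃ y, 2 * (R0.filter fun r => ¬ G y r).card ≤ R0.card := by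
    by_contra hno
    push Not at hno
    have h1 : ∑ y : ρ → Fin (τ + 2) → Fin M, (R0.card + 1) ≤
        ∑ y : ρ → Fin (τ + 2) → Fin M, 2 * (R0.filter fun r => ¬ G y r).card :=
      sum_le_sum fun y _ => hno y
    have h2 : ∑ y : ρ → Fin (τ + 2) → Fin M, 2 * (R0.filter fun r => ¬ G y r).card =
        ∑ r ∈ R0, 2 * (univ.filter fun y => ¬ G y r).card := by
      rw [← mul_sum, ← mul_sum]
      congr 1
      simp only [card_filter]
      exact sum_comm
    have h3 : ∑ r ∈ R0, 2 * (univ.filter fun y => ¬ G y r).card ≤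
        ∑ r ∈ R0, Fintype.card (ρ → Fin (τ + 2) → Fin M) := sum_le_sum fun r _ => hgr r
    rw [sum_const, smul_eq_mul] at h1 h3
    rw [h2] at h1
    have h4 := h1.trans h3
    rw [card_univ] at h4
    have h5 : 0 < Fintype.card (ρ → Fin (τ + 2) → Fin M) := Fintype.card_pos
    nlinarith
  -- the sets `X`
  have hcov := fun K => cover (q := q) cq y K t T hT false
  choose 𝒳 h𝒳len h𝒳ci h𝒳 using hcov
  have hsub : ∀ K, ∀ X ∈ 𝒳 K, ∀ r ∈ X, ∀ x, ∃ i, r i x ≠ 0 := by
    intro K X hX r hr x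
    have h1 := ((h𝒳 K r).1 ⟨X, hX, hr⟩).2.2
    by_contra hno
    push Not at hno
    have h2 := (hcon (zet y r)).2 ⟨x, fun i c => by simp [zet, hno i]⟩
    rw [h1] at h2
    exact absurd h2 (by simp)
  have hR0f : ∀ r ∈ R0, T.eval (fun p => (cq p).val (zet y r)) = false := by
    intro r hr
    by_contra hno
    rw [Bool.not_eq_false] at hno
    obtain ⟨x, hx⟩ := (hcon (zet y r)).1 hno
    rw [hR0, mem_filter] at hr
    obtain ⟨i, hi⟩ := hr.2 x
    have := hx i (y x i)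
    simp [zet, hi] at this
  set 𝒦 : Finset (Finset (ρ × Fin (τ + 2) × Fin M)) := univ.filter fun K => K.card ≤ s with h𝒦
  set U : ℕ := (Fintype.card ρ * (τ + 2) * M + 1) ^ s * ((w + 1) ^ (2 ^ (τ + 2))) ^ t with hU
  have hUpos : 0 < U := by positivity
  have h𝒦c : 𝒦.card ≤ (Fintype.card ρ * (τ + 2) * M + 1) ^ s := by
    have := card_small (E := ρ × Fin (τ + 2) × Fin M) s
    simpa [Fintype.card_prod, mul_assoc] using this
  have hR0pos : 0 < R0.card := by
    rw [card_pos]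
    refine ⟨fun _ _ => 1, ?_⟩
    rw [hR0, mem_filter]
    refine ⟨mem_univ _, fun x => ⟨0, ?_⟩⟩
    rw [hq]
    simp
  obtain ⟨K, X, hX, hXc⟩ : ∃ K, ∃ X ∈ 𝒳 K, R0.card ≤ 2 * U * Nat.card X := by
    by_contra hno
    push Not at hno
    -- count
    have h1 : R0.card ≤ 2 * (R0.filter fun r => G y r).card := by
      have := card_filter_add_card_filter_not (s := R0) (fun r => G y r)
      omega
    have h2 : (R0.filter fun r => G y r) ⊆
        𝒦.biUnion fun K => (𝒳 K).toFinset.biUnion fun X => univ.filter fun r => r ∈ X := by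
      intro r hr
      rw [mem_filter] at hr
      obtain ⟨hr0, K, hK1, hK2, hK3⟩ := hr
      obtain ⟨X, hX, hrX⟩ := (h𝒳 K r).2 ⟨hK2, hK3, hR0f r hr0⟩
      simp only [mem_biUnion]
      exact ⟨K, by simp [h𝒦, hK1], X, by simpa using hX, by simpa using hrX⟩
    have h3 : ∀ K, 2 * U * ((𝒳 K).toFinset.biUnion fun X => univ.filter fun r => r ∈ X).card ≤
        ((w + 1) ^ (2 ^ (τ + 2))) ^ t * (R0.card - 1) := by
      intro K
      calc 2 * U * ((𝒳 K).toFinset.biUnion fun X => univ.filter fun r => r ∈ X).card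
          ≤ 2 * U * ∑ X ∈ (𝒳 K).toFinset, (univ.filter fun r => r ∈ X).card :=
            Nat.mul_le_mul_left _ card_biUnion_le
        _ = ∑ X ∈ (𝒳 K).toFinset, 2 * U * (univ.filter fun r => r ∈ X).card := by rw [mul_sum]
        _ ≤ ∑ X ∈ (𝒳 K).toFinset, (R0.card - 1) := by
            apply sum_le_sum
            intro X hX
            have := hno K X (by simpa using hX)
            rw [Nat.card_eq_fintype_card, Fintype.card_subtype] at this
            have h' : (univ.filter fun r => r ∈ X).card = (univ.filter fun r => r ∈ X).card := rfl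
            omega
        _ = (𝒳 K).toFinset.card * (R0.card - 1) := by rw [sum_const, smul_eq_mul]
        _ ≤ _ := Nat.mul_le_mul_right _ ((List.toFinset_card_le _).trans (h𝒳len K))
    have h4 : U * R0.card ≤ U * (R0.card - 1) := by
      calc U * R0.card ≤ U * (2 * (R0.filter fun r => G y r).card) := Nat.mul_le_mul_left _ h1
        _ = 2 * U * (R0.filter fun r => G y r).card := by ring
        _ ≤ 2 * U * ∑ K ∈ 𝒦, ((𝒳 K).toFinset.biUnion fun X => univ.filter fun r => r ∈ X).card :=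
            Nat.mul_le_mul_left _ ((card_le_card h2).trans card_biUnion_le)
        _ = ∑ K ∈ 𝒦, 2 * U * ((𝒳 K).toFinset.biUnion fun X => univ.filter fun r => r ∈ X).card := by
            rw [mul_sum]
        _ ≤ ∑ K ∈ 𝒦, ((w + 1) ^ (2 ^ (τ + 2))) ^ t * (R0.card - 1) := sum_le_sum fun K _ => h3 K
        _ = 𝒦.card * (((w + 1) ^ (2 ^ (τ + 2))) ^ t * (R0.card - 1)) := by
            rw [sum_const, smul_eq_mul]
        _ ≤ (Fintype.card ρ * (τ + 2) * M + 1) ^ s *
            (((w + 1) ^ (2 ^ (τ + 2))) ^ t * (R0.card - 1)) := Nat.mul_le_mul_right _ h𝒦c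
        _ = U * (R0.card - 1) := by rw [hU]; ring
    have h5 := Nat.le_of_mul_le_mul_left h4 hUpos
    omega
  -- numbers
  have hb := bns (n := τ + 1) (q := q) (by omega) X (h𝒳ci K X hX) (hsub K X hX)
  have hq1 : (q : ℝ) + 1 = 4 * ((τ : ℝ) + 2) := by rw [hq]; push_cast; ring
  rw [hq1] at hb
  set tot : ℕ := Fintype.card (Fin (τ + 1 + 1) → ρ → Fin (q + 1)) with htot
  have htotc : (tot : ℝ) = (4 * ((τ : ℝ) + 2)) ^ ((τ + 2) * Fintype.card ρ) := by
    rw [htot]
    simp only [Fintype.card_fun, Fintype.card_fin]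
    push_cast
    rw [hq1, ← pow_mul]
    congr 1
    ring
  have htot0 : (0 : ℝ) < tot := by rw [htotc]; positivity
  have hR0c : (R0.card : ℝ) / tot =
      (1 - 1 / (4 * ((τ : ℝ) + 2)) ^ (τ + 2)) ^ Fintype.card ρ := by
    have h1 : R0.card = ((q + 1) ^ (τ + 2) - 1) ^ Fintype.card ρ := card_R0
    have h2 : (((q + 1) ^ (τ + 2) - 1 : ℕ) : ℝ) = (4 * ((τ : ℝ) + 2)) ^ (τ + 2) - 1 := by
      rw [Nat.cast_sub (Nat.one_le_pow _ _ (by omega))]
      push_cast
      rw [hq1]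
    rw [h1, htotc]
    push_cast
    rw [h2, pow_mul, ← div_pow]
    congr 1
    field_simp
  apply numC τ (Fintype.card ρ) U (by positivity) _ hB
  calc (1 - 1 / (4 * ((τ : ℝ) + 2)) ^ (τ + 2)) ^ (Fintype.card ρ * 2 ^ (τ + 1))
      = ((R0.card : ℝ) / tot) ^ (2 ^ (τ + 1)) := by rw [hR0c, ← pow_mul]
    _ ≤ (2 * U * ((Nat.card X : ℝ) / tot)) ^ (2 ^ (τ + 1)) := by
        apply pow_le_pow_left₀ (by positivity)
        rw [← mul_div_assoc]
        apply div_le_div_of_nonneg_right _ htot0.le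
        exact_mod_cast hXc
    _ = (2 * U) ^ (2 ^ (τ + 1)) * ((Nat.card X : ℝ) / tot) ^ (2 ^ (τ + 1)) := by rw [mul_pow]
    _ ≤ _ := mul_le_mul_of_nonneg_left hb (by positivity)

end Pool.Agent.Lib.Pf91712
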