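import Pool.Agent.Lib.Pa76659.Defs

/-!
# Relativised parameterized classes

Oracle machines are the structured programs on pushdown registers of `Pool.Agent.Lib.Pa76659.Defs`.
An instance of a parameterized (counting) problem is a string together with its parameter.
-/

set_option autoImplicit false

namespace Pool.Agent.Lib.Pf91712

open Pool.Agent.Lib.Pa76659 (Str Lang Prog Halts accepts join)

/-- Initial register contents: the string `x`, the parameter `k` in unary, the string `z`. -/
def inp3 (x : Str) (k : ℕ) (z : Str) : ℕ → Str := fun r =>
  if r = 0 then x else if r = 1 then List.replicate k true else if r = 2 then z else []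

/-- The number of strings `z` of length `h k * ⌊log₂ |x|⌋` such that the program `M` with oracle `O`,
started on `(x, k, z)`, accepts after `f k * (|x| + 1) ^ c` steps. -/
noncomputable def cnt (O : Lang) (M : Prog) (f h : ℕ → ℕ) (c : ℕ) (x : Str) (k : ℕ) : ℕ :=
  Nat.card {z : Str // z.length = h k * Nat.log 2 x.length ∧
    accepts O M (inp3 x k z) (f k * (x.length + 1) ^ c) = true}

/-- `#W[P]` relative to the oracle `O` (machine form): the functions counting the accepting guesses
of `h k * log |x|` bits of an oracle machine which runs in time `f k * (|x| + 1) ^ c`. -/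
def SharpWP (O : Lang) : Set (Str → ℕ → ℕ) :=
  {F | ∃ (M : Prog) (f h : ℕ → ℕ) (c : ℕ), ∀ (x : Str) (k : ℕ),
    (∀ z : Str, z.length = h k * Nat.log 2 x.length →
      Halts O M (inp3 x k z) (f k * (x.length + 1) ^ c)) ∧ F x k = cnt O M f h c x k}

/-- The number of leading `true`s of a string, and the rest after the first `false`. -/
def unary : Str → ℕ × Str
  | [] => (0, [])
  | true :: v => ((unary v).1 + 1, (unary v).2)
  | false :: v => (0, v)

/-- Oracle for the binary digits of the values of `F` at instances with parameter at most `g`: the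
answer to `1^k 0 1^i 0 y` is the `i`-th binary digit of `F y k` if `k ≤ g`, and `false` if `k > g`. -/
def bitsOf (F : Str → ℕ → ℕ) (g : ℕ) : Lang := fun w =>
  decide ((unary w).1 ≤ g) &&
    (F (unary (unary w).2).2 (unary w).1).testBit (unary (unary w).2).1

/-- The program `M`, with oracles `O` and `F` (queries to `F` with parameter at most `g`), decides
the slice `L · k` in time `a * (|x| + 1) ^ c`. -/
def Solves (O : Lang) (F : Str → ℕ → ℕ) (L : Str → ℕ → Prop) (M : Prog) (a g c k : ℕ) : Prop :=
  ∀ x : Str, Halts (join O (bitsOf F g)) M (inp3 x k []) (a * (x.length + 1) ^ c) ∧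
    (L x k ↔ accepts (join O (bitsOf F g)) M (inp3 x k []) (a * (x.length + 1) ^ c) = true)

/-- fpt Turing reducibility, relative to `O`, of the parameterized problem `L` to the
parameterized counting problem `F`. -/
def FptTuring (O : Lang) (F : Str → ℕ → ℕ) (L : Str → ℕ → Prop) : Prop :=
  ∃ (M : Prog) (f g : ℕ → ℕ) (c : ℕ), ∀ k : ℕ, Solves O F L M (f k) (g k) c k

/-- The oracle query for the tuples `u`, `v` of `k` numbers with `m` binary digits. -/
def code (m k : ℕ) (u v : Str) : Str :=
  List.replicate m true ++ false :: (List.replicate k true ++ false :: (u ++ v))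

/-- The problem `∃ u₁ ... u_k ∀ v₁ ... v_k R(u, v)`: the `u_i`, `v_i` are numbers with
`⌊log₂ |x|⌋` binary digits and the relation `R` of arity `2 k` is given by the oracle. -/
def SigmaTwo (O : Lang) (x : Str) (k : ℕ) : Prop :=
  ∃ u : Str, u.length = k * Nat.log 2 x.length ∧ ∀ v : Str, v.length = k * Nat.log 2 x.length →
    O (code (Nat.log 2 x.length) k u v) = true

end Pool.Agent.Lib.Pf91712
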