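import Pool.Agent.Lib.Pf91712.Defs
import Pool.Agent.Lib.Pa76659.Sem

/-!
# Finite use of the oracle

`SigmaTwo O (replicate (2 ^ m) true) k` only depends on the strings of length
`m + 1 + (k + 1 + (k * m + k * m))` (`Nat.log_pow`). The computation of `M`: the labels of
`accTree M (inp3 (replicate (2 ^ m) true) k []) (a * (2 ^ m + 1) ^ c)` have length at most
`B = 2 ^ m + k + a * (2 ^ m + 1) ^ c` (`accTree_qin`, `Bdd`), so by `DT.eval_congr` it suffices that
`join O (bitsOf (cnt O M' f h c') g) p = join O' (bitsOf (cnt O' M' f h c') g) p` for `p.length ≤ B`. For `p = true :: v`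
with `k' = (unary v).1 ≤ g`, `y = (unary (unary v).2).2` (length `≤ B`): `cnt O M' f h c' y k' = cnt O' M' f h c' y k'`
as `accepts O M' (inp3 y k' z) (f k' * (y.length + 1) ^ c')` is the same for `O` and `O'` (again `accTree_eval`,
`accTree_qin`, `DT.eval_congr`) for `z.length = h k' * Nat.log 2 y.length ≤ Hm * B`: the queries have length at most
`(B + g + Hm * B) + Fm * (B + 1) ^ c'`, with `Fm = ∑ i ≤ g, f i`, `Hm = ∑ i ≤ g, h i`.
-/

set_option autoImplicit false

namespace Pool.Agent.Lib.Pf91712

open Pool.Agent.Lib.Pa76659 (Str Lang Prog Halts accepts join DT)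

namespace LocAux

open Pool.Agent.Lib.Pa76659

theorem accepts_congr' (O O' : Lang) (M : Prog) (s : ℕ → Str) (n b : ℕ) (hs : Bdd b s)
    (h : ∀ v : Str, v.length ≤ b + n → O v = O' v) : accepts O M s n = accepts O' M s n := by
  rw [← accTree_eval, ← accTree_eval]
  exact DT.eval_congr (S := {v | v.length ≤ b + n}) h (accTree_qin _ _ _ _ hs)

theorem inp3_bdd' (x : Str) (k : ℕ) (z : Str) : Bdd (x.length + k + z.length) (inp3 x k z) := by
  intro r
  unfold inp3
  split_ifs
  · omega
  · rw [List.length_replicate]; omega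
  · omega
  · simp

theorem unary_fst_le : ∀ v : Str, (unary v).1 ≤ v.length
  | [] => le_rfl
  | true :: v => by
      have := unary_fst_le v
      simp only [unary, List.length_cons]
      omega
  | false :: v => by simp [unary]

theorem unary_snd_le : ∀ v : Str, (unary v).2.length ≤ v.length
  | [] => le_rfl
  | true :: v => by
      have := unary_snd_le v
      simp only [unary, List.length_cons]
      omega
  | false :: v => by simp [unary]

theorem cnt_congr' (O O' : Lang) (M : Prog) (f h : ℕ → ℕ) (c : ℕ) (x : Str) (k : ℕ)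
    (H : ∀ z : Str, z.length = h k * Nat.log 2 x.length →
      accepts O M (inp3 x k z) (f k * (x.length + 1) ^ c) =
        accepts O' M (inp3 x k z) (f k * (x.length + 1) ^ c)) :
    cnt O M f h c x k = cnt O' M f h c x k := by
  unfold cnt
  apply Nat.card_congr
  apply Equiv.subtypeEquivRight
  intro z
  constructor
  · rintro ⟨h1, h2⟩; exact ⟨h1, by rw [← H z h1]; exact h2⟩
  · rintro ⟨h1, h2⟩; exact ⟨h1, by rw [H z h1]; exact h2⟩

theorem bitsOf_congr' (F F' : Str → ℕ → ℕ) (g B : ℕ) (H : ∀ (y : Str) (k : ℕ), k ≤ g →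
    y.length ≤ B → F y k = F' y k) (w : Str) (hw : w.length ≤ B) :
    bitsOf F g w = bitsOf F' g w := by
  unfold bitsOf
  by_cases hg : (unary w).1 ≤ g
  · have h1 := unary_snd_le w
    have h2 := unary_snd_le (unary w).2
    rw [H _ _ hg (by omega)]
  · simp [hg]

theorem sigma_congr (O O' : Lang) (m k : ℕ)
    (H : ∀ v : Str, v.length ≤ m + 1 + (k + 1 + (k * m + k * m)) → O v = O' v) :
    SigmaTwo O (List.replicate (2 ^ m) true) k ↔ SigmaTwo O' (List.replicate (2 ^ m) true) k := by
  have hlog : Nat.log 2 (List.replicate (2 ^ m) true).length = m := by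
    rw [List.length_replicate]
    exact Nat.log_pow (by norm_num) m
  unfold SigmaTwo
  rw [hlog]
  have key : ∀ u v : Str, u.length = k * m → v.length = k * m →
      O (code m k u v) = O' (code m k u v) := by
    intro u v hu hv
    apply H
    unfold code
    simp only [List.length_append, List.length_replicate, List.length_cons, hu, hv]
    omega
  constructor
  · rintro ⟨u, hu, h⟩
    exact ⟨u, hu, fun v hv => by rw [← key u v hu hv]; exact h v hv⟩
  · rintro ⟨u, hu, h⟩
    exact ⟨u, hu, fun v hv => by rw [key u v hu hv]; exact h v hv⟩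

end LocAux

open LocAux in
theorem loc (M' M : Prog) (f h : ℕ → ℕ) (c' c a g k m : ℕ) : ∃ L : ℕ, ∀ O O' : Lang,
    (∀ v : Str, v.length ≤ L → O v = O' v) →
    ((SigmaTwo O (List.replicate (2 ^ m) true) k ↔
        accepts (join O (bitsOf (cnt O M' f h c') g)) M (inp3 (List.replicate (2 ^ m) true) k [])
          (a * (2 ^ m + 1) ^ c) = true) ↔
      (SigmaTwo O' (List.replicate (2 ^ m) true) k ↔
        accepts (join O' (bitsOf (cnt O' M' f h c') g)) M (inp3 (List.replicate (2 ^ m) true) k [])
          (a * (2 ^ m + 1) ^ c) = true)) := by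
  obtain ⟨B, hB⟩ : ∃ B, B = 2 ^ m + k + a * (2 ^ m + 1) ^ c := ⟨_, rfl⟩
  obtain ⟨Fm, hFm⟩ : ∃ Fm, Fm = ∑ i ∈ Finset.range (g + 1), f i := ⟨_, rfl⟩
  obtain ⟨Hm, hHm⟩ : ∃ Hm, Hm = ∑ i ∈ Finset.range (g + 1), h i := ⟨_, rfl⟩
  refine ⟨(m + 1 + (k + 1 + (k * m + k * m))) + B + ((B + g + Hm * B) + Fm * (B + 1) ^ c'),
    fun O O' H => ?_⟩
  have h1 := sigma_congr O O' m k (fun v hv => H v (by omega))
  have hcnt : ∀ (y : Str) (k' : ℕ), k' ≤ g → y.length ≤ B →
      cnt O M' f h c' y k' = cnt O' M' f h c' y k' := by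
    intro y k' hk' hy
    apply cnt_congr'
    intro z hz
    apply accepts_congr' _ _ _ _ _ _ (inp3_bdd' y k' z)
    intro v hv
    apply H
    have e1 : f k' ≤ Fm := by
      rw [hFm]
      exact Finset.single_le_sum (f := f) (fun _ _ => Nat.zero_le _)
        (Finset.mem_range.2 (by omega))
    have e2 : h k' ≤ Hm := by
      rw [hHm]
      exact Finset.single_le_sum (f := h) (fun _ _ => Nat.zero_le _)
        (Finset.mem_range.2 (by omega))
    have e3 : f k' * (y.length + 1) ^ c' ≤ Fm * (B + 1) ^ c' := by gcongr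
    have e4 : h k' * Nat.log 2 y.length ≤ Hm * B :=
      Nat.mul_le_mul e2 ((Nat.log_le_self _ _).trans hy)
    omega
  have h2 : accepts (join O (bitsOf (cnt O M' f h c') g)) M
      (inp3 (List.replicate (2 ^ m) true) k []) (a * (2 ^ m + 1) ^ c) =
      accepts (join O' (bitsOf (cnt O' M' f h c') g)) M
        (inp3 (List.replicate (2 ^ m) true) k []) (a * (2 ^ m + 1) ^ c) := by
    apply accepts_congr' _ _ _ _ _ _ (inp3_bdd' (List.replicate (2 ^ m) true) k [])
    intro v hv
    rw [List.length_replicate, List.length_nil] at hv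
    match v, hv with
    | [], _ => rfl
    | false :: v, hv =>
      rw [List.length_cons] at hv
      exact H v (by omega)
    | true :: v, hv =>
      rw [List.length_cons] at hv
      exact bitsOf_congr' _ _ g B hcnt v (by omega)
  rw [h1, h2]

end Pool.Agent.Lib.Pf91712
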