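import Pool.Agent.Lib.Pf91712.Mach
import Pool.Agent.Lib.Pf91712.Loc

/-!
# Diagonalisation

Index type `I = Prog × Prog × (ℕ →₀ ℕ) × (ℕ →₀ ℕ) × ℕ × ℕ × ℕ × ℕ × ℕ` (for `M'`, `M`, `f`, `h`, `c'`, `c`, `a`, `g`, `k`),
countable (`Countable Prog` is an instance of `Pa76659/Sem.lean`) and nonempty: let `e : ℕ → I` be surjective.
Requirement `Req i O`: if `2 * ((c + 2) * c' + 1) + 3 + (c + 2) ≤ k` then there is an `m` with
`¬ (SigmaTwo O (replicate (2 ^ m) true) k ↔ accepts ... = true)`. STEP: for all `i`, `O0`, `N` there are `O1`, `L ≥ N` such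
that `O1 v = O0 v` for `v.length < N` and every `O'` with `O' v = O1 v` for all `v` with `v.length < L` satisfies
`Req i O'` (`mach` with `m ≥ max m0 N`: the strings `code m k u v` have length `> m ≥ N`; `loc`). Iterate: a sequence
`(O_n, L_n)` with `n ≤ L_n`, `O_{n+1} = O_n` below `L_n`, `L_n ≤ L_{n+1}`; the limit `O v = O_{v.length + 1} v` agrees with
`O_n` below `L_n` for each `n`, so `Req (e n) O` for all `n`. (Compare `Pa76659.exists_limit` in `Pa76659/Limit.lean`.)

Conclusion: let `F ∈ SharpWP O` be given by `M'`, `f`, `h`, `c'`: `F x k = cnt O M' f h c' x k`. Let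
`K = 2 * ((c + 2) * c' + 1) + 3 + (c + 2)`, `k ≥ K`, and `M`, `a`, `g`. Choose `f'`, `h'` finitely supported with
`f' = f`, `h' = h` on `[0, g]`; then `bitsOf F g = bitsOf (cnt O M' f' h' c') g` (the parameter `(unary w).1` is `≤ g`
where the value is used, and `cnt O M' f h c' y k'` only depends on `f k'`, `h k'`). `Req i O` for this index `i` contradicts
`Solves O F (SigmaTwo O) M a g c k` at `x = replicate (2 ^ m) true`.
-/

set_option autoImplicit false

namespace Pool.Agent.Lib.Pf91712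

open Pool.Agent.Lib.Pa76659 (Str Lang Prog Halts accepts join DT)

/-- The limit of a sequence of finite extensions. -/
theorem fin_limit (R : ℕ → Lang → Prop)
    (step : ∀ (n : ℕ) (O0 : Lang) (N : ℕ), ∃ (O1 : Lang) (L : ℕ), N ≤ L ∧
      (∀ v : Str, v.length < N → O1 v = O0 v) ∧
      ∀ O' : Lang, (∀ v : Str, v.length < L → O' v = O1 v) → R n O') :
    ∃ O : Lang, ∀ n, R n O := by
  choose nO nL h1 h2 h3 using step
  let st : ℕ → Lang × ℕ := fun n => Nat.rec ((fun _ => false, 0) : Lang × ℕ)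
    (fun n a => (nO n a.1 a.2, nL n a.1 a.2 + 1)) n
  have hst : ∀ n, st (n + 1) = (nO n (st n).1 (st n).2, nL n (st n).1 (st n).2 + 1) :=
    fun n => rfl
  have hN : ∀ n, n ≤ (st n).2 := by
    intro n
    induction n with
    | zero => exact Nat.zero_le _
    | succ n ih =>
        have := h1 n (st n).1 (st n).2
        rw [hst]
        show n + 1 ≤ nL n (st n).1 (st n).2 + 1
        omega
  have hmono : ∀ n m, n ≤ m → (st n).2 ≤ (st m).2 := by
    intro n m hnm
    induction m, hnm using Nat.le_induction with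
    | base => exact le_rfl
    | succ m _ ih =>
        have := h1 m (st m).1 (st m).2
        rw [hst]
        show (st n).2 ≤ nL m (st m).1 (st m).2 + 1
        omega
  have hW : ∀ n m, n ≤ m → ∀ v : Str, v.length < (st n).2 → (st m).1 v = (st n).1 v := by
    intro n m hnm
    induction m, hnm using Nat.le_induction with
    | base => exact fun _ _ => rfl
    | succ m hm ih =>
        intro v hv
        rw [hst]
        show nO m (st m).1 (st m).2 v = (st n).1 v
        rw [h2 m (st m).1 (st m).2 v (lt_of_lt_of_le hv (hmono n m hm)), ih v hv]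
  let X : Lang := fun v => (st (v.length + 1)).1 v
  have hX : ∀ n, ∀ v : Str, v.length < (st n).2 → X v = (st n).1 v := by
    intro n v hv
    show (st (v.length + 1)).1 v = (st n).1 v
    have h6 : v.length < (st (v.length + 1)).2 := by
      have := hN (v.length + 1)
      omega
    rcases le_total n (v.length + 1) with h | h
    · exact hW n _ h v hv
    · exact (hW _ n h v h6).symm
  refine ⟨X, fun n => h3 n (st n).1 (st n).2 X fun v hv => ?_⟩
  have h7 := hX (n + 1) v (by
    rw [hst]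
    show v.length < nL n (st n).1 (st n).2 + 1
    omega)
  rw [h7, hst]

/-- The indices of the requirements. -/
abbrev Ix : Type := (Prog × Prog) × ((ℕ →₀ ℕ) × (ℕ →₀ ℕ)) × (ℕ × ℕ) × (ℕ × ℕ × ℕ)

/-- The computation disagrees with the problem at `1^(2^m)`. -/
def Bad (M' M : Prog) (f h : ℕ → ℕ) (c' c a g k m : ℕ) (O : Lang) : Prop :=
  ¬ (SigmaTwo O (List.replicate (2 ^ m) true) k ↔
    accepts (join O (bitsOf (cnt O M' f h c') g)) M (inp3 (List.replicate (2 ^ m) true) k [])
      (a * (2 ^ m + 1) ^ c) = true)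

theorem code_len (m k : ℕ) (u v : Str) : m < (code m k u v).length := by
  unfold code
  simp only [List.length_append, List.length_cons, List.length_replicate]
  omega

theorem step_one (M' M : Prog) (f h : ℕ → ℕ) (c' c a g k : ℕ) (O0 : Lang) (N : ℕ) :
    ∃ (O1 : Lang) (L : ℕ), N ≤ L ∧ (∀ v : Str, v.length < N → O1 v = O0 v) ∧
      ∀ O' : Lang, (∀ v : Str, v.length < L → O' v = O1 v) →
        (2 * ((c + 2) * c' + 1) + 3 + (c + 2) ≤ k → ∃ m, Bad M' M f h c' c a g k m O') := by
  by_cases hk : 2 * ((c + 2) * c' + 1) + 3 + (c + 2) ≤ k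
  · obtain ⟨m0, hm0⟩ := mach M' M f h c' c a g k hk
    obtain ⟨O1, h1, h2⟩ := hm0 (max m0 N) (le_max_left _ _) O0
    obtain ⟨L, hL⟩ := loc M' M f h c' c a g k (max m0 N)
    refine ⟨O1, max N (L + 1), le_max_left _ _, ?_, ?_⟩
    · intro v hv
      apply h1
      intro u w _ _ hc
      have := code_len (max m0 N) k u w
      rw [← hc] at this
      have h3 := le_max_right m0 N
      omega
    · intro O' hO' _
      refine ⟨max m0 N, ?_⟩
      have h3 := hL O' O1 (fun v hv => hO' v (by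
        have := le_max_right N (L + 1)
        omega))
      intro hc
      exact h2 (h3.1 hc)
  · exact ⟨O0, N, le_rfl, fun _ _ => rfl, fun _ _ h => absurd h hk⟩

theorem cnt_congr {O : Lang} {M : Prog} {f f' h h' : ℕ → ℕ} {c : ℕ} {x : Str} {k : ℕ}
    (hf : f k = f' k) (hh : h k = h' k) : cnt O M f h c x k = cnt O M f' h' c x k := by
  unfold cnt
  rw [hf, hh]

theorem bits_congr {F G : Str → ℕ → ℕ} {g : ℕ} (h : ∀ x k, k ≤ g → F x k = G x k) :
    bitsOf F g = bitsOf G g := by
  funext w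
  unfold bitsOf
  by_cases hw : (unary w).1 ≤ g
  · rw [h _ _ hw]
  · simp [hw]

/-- The finitely supported function that agrees with `f` on `[0, g]`. -/
noncomputable def cut (f : ℕ → ℕ) (g : ℕ) : ℕ →₀ ℕ :=
  Finsupp.onFinset (Finset.range (g + 1)) (fun n => if n ≤ g then f n else 0) (by
    intro n hn
    by_contra hc
    rw [Finset.mem_range] at hc
    rw [if_neg (by omega)] at hn
    exact hn rfl)

theorem cut_apply (f : ℕ → ℕ) (g n : ℕ) (hn : n ≤ g) : cut f g n = f n := by
  unfold cut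
  rw [Finsupp.onFinset_apply, if_pos hn]

theorem diag : ∃ O : Lang, ∀ F ∈ SharpWP O, ∀ c : ℕ, ∃ K : ℕ, ∀ k, K ≤ k →
    ∀ (M : Prog) (a g : ℕ), ¬ Solves O F (SigmaTwo O) M a g c k := by
  classical
  have hne : Nonempty Ix := ⟨((Prog.skip, Prog.skip), (0, 0), (0, 0), (0, 0, 0))⟩
  obtain ⟨e, he⟩ := exists_surjective_nat Ix
  obtain ⟨O, hO⟩ := fin_limit
    (fun n O => 2 * (((e n).2.2.1.2 + 2) * (e n).2.2.1.1 + 1) + 3 + ((e n).2.2.1.2 + 2) ≤
        (e n).2.2.2.2.2 →
      ∃ m, Bad (e n).1.1 (e n).1.2 (e n).2.1.1 (e n).2.1.2 (e n).2.2.1.1 (e n).2.2.1.2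
        (e n).2.2.2.1 (e n).2.2.2.2.1 (e n).2.2.2.2.2 m O)
    (fun n O0 N => step_one _ _ _ _ _ _ _ _ _ O0 N)
  refine ⟨O, ?_⟩
  rintro F ⟨M', f, h, c', hF⟩ c
  refine ⟨2 * ((c + 2) * c' + 1) + 3 + (c + 2), fun k hk M a g hS => ?_⟩
  obtain ⟨n, hn⟩ := he ((M', M), (cut f g, cut h g), (c', c), (a, g, k))
  have h1 := hO n
  rw [hn] at h1
  obtain ⟨m, hm⟩ := h1 hk
  apply hm
  have h2 := (hS (List.replicate (2 ^ m) true)).2
  rw [List.length_replicate] at h2
  have h3 : bitsOf F g = bitsOf (cnt O M' (cut f g) (cut h g) c') g := by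
    apply bits_congr
    intro x k' hk'
    rw [(hF x k').2]
    exact cnt_congr (cut_apply f g k' hk').symm (cut_apply h g k' hk').symm
  rw [h3] at h2
  exact h2

end Pool.Agent.Lib.Pf91712
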