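import Pool.Agent.Lib.Pf91712.Defs
import Pool.Agent.Lib.Pf91712.CDefs
import Pool.Agent.Lib.Pa76659.LBReq

/-!
# Writing an input into the oracle

Strings of length `l = k * m` correspond to `Fin (2 ^ l)` (`Pa76659.bs`, `bs_inj`, `bs_surj`, `bsE`, or
`List.Vector`/`Fintype.equivFinOfCardEq`). `code m k` is injective on pairs of strings of length `l`
(cut off `m + 1 + k + 1` symbols, then `List.append_inj`). By `hM` there is an injection
`Fin (τ + 2) × Fin C → Fin (2 ^ l)` (cardinalities), used for the columns. For a string `s`: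
* `s = code m k u v` with `u`, `v` of length `l`, `u` the `x`-th string, `v` the image of `(i, y)`: `sub s` is
  `DT.node (x, i, y) (DT.leaf true) (DT.leaf false)` (value `! ζ (x, i, y)`);
* `s = code m k u v` with `v` not in the image: `DT.leaf true`;
* otherwise `DT.leaf (O0 s)`.
`SigmaTwo`: `Nat.log 2 (2 ^ m) = m` (`Nat.log_pow`), `k * m = l`.
-/

set_option autoImplicit false

namespace Pool.Agent.Lib.Pf91712

open Pool.Agent.Lib.Pa76659 (Str Lang Prog Halts accepts join DT)

namespace Emb1Aux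

theorem code_inj {m k l : ℕ} {u v u' v' : Str} (hu : u.length = l) (hu' : u'.length = l)
    (h : code m k u v = code m k u' v') : u = u' ∧ v = v' := by
  unfold code at h
  have h1 := List.append_cancel_left h
  have h2 := List.append_cancel_left (List.cons.inj h1).2
  have h3 := (List.cons.inj h2).2
  exact List.append_inj h3 (hu.trans hu'.symm)

/-- the strings of length `l` -/
abbrev LV (l : ℕ) : Type := List.Vector Bool l

theorem card_LV (l : ℕ) : Fintype.card (LV l) = 2 ^ l := by
  rw [card_vector, Fintype.card_bool]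

/-- an enumeration of the strings of length `l` -/
noncomputable def row (l : ℕ) : Fin (2 ^ l) ≃ LV l :=
  (Fintype.equivFinOfCardEq (card_LV l)).symm

open Classical in
/-- the substitution -/
noncomputable def sb {m k κ C : ℕ} (col : Fin κ × Fin C ↪ LV (k * m)) (O0 : Lang) (s : Str) :
    DT (Fin (2 ^ (k * m)) × Fin κ × Fin C) Bool :=
  if h : ∃ q : Fin (2 ^ (k * m)) × (Fin κ × Fin C),
      s = code m k (row (k * m) q.1).1 (col q.2).1 then
    DT.node h.choose (DT.leaf true) (DT.leaf false)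
  else if ∃ u v : Str, u.length = k * m ∧ v.length = k * m ∧ s = code m k u v then
    DT.leaf true
  else DT.leaf (O0 s)

variable {m k κ C : ℕ} (col : Fin κ × Fin C ↪ LV (k * m)) (O0 : Lang)

theorem sb_depth (s : Str) : (sb col O0 s).depth ≤ 1 := by
  unfold sb
  split_ifs <;> simp [DT.depth]

theorem sb_out (s : Str)
    (h : ∀ u v : Str, u.length = k * m → v.length = k * m → s ≠ code m k u v)
    (ζ : Fin (2 ^ (k * m)) × Fin κ × Fin C → Bool) : (sb col O0 s).eval ζ = O0 s := by
  unfold sb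
  rw [dif_neg, if_neg]
  · rfl
  · rintro ⟨u, v, h1, h2, h3⟩
    exact h u v h1 h2 h3
  · rintro ⟨q, hq⟩
    exact h _ _ (row (k * m) q.1).2 (col q.2).2 hq

theorem sb_in (x : Fin (2 ^ (k * m))) (p : Fin κ × Fin C)
    (ζ : Fin (2 ^ (k * m)) × Fin κ × Fin C → Bool) :
    (sb col O0 (code m k (row (k * m) x).1 (col p).1)).eval ζ = ! ζ (x, p) := by
  unfold sb
  have h : ∃ q : Fin (2 ^ (k * m)) × (Fin κ × Fin C),
      code m k (row (k * m) x).1 (col p).1 = code m k (row (k * m) q.1).1 (col q.2).1 :=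
    ⟨(x, p), rfl⟩
  rw [dif_pos h]
  have h1 : h.choose = (x, p) := by
    have h2 := h.choose_spec
    obtain ⟨h3, h4⟩ := code_inj (row (k * m) x).2 (row (k * m) h.choose.1).2 h2
    have h5 : x = h.choose.1 := (row (k * m)).injective (Subtype.ext h3)
    have h6 : p = h.choose.2 := col.injective (Subtype.ext h4)
    exact (Prod.ext h5 h6).symm
  rw [h1]
  simp only [DT.eval]
  cases ζ (x, p) <;> simp

theorem sb_rest (u v : Str) (hu : u.length = k * m) (hv : v.length = k * m)
    (h : ∀ p, v ≠ (col p).1)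
    (ζ : Fin (2 ^ (k * m)) × Fin κ × Fin C → Bool) :
    (sb col O0 (code m k u v)).eval ζ = true := by
  unfold sb
  rw [dif_neg, if_pos]
  · rfl
  · exact ⟨u, v, hu, hv, rfl⟩
  · rintro ⟨q, hq⟩
    exact h q.2 (code_inj hu (row (k * m) q.1).2 hq).2

end Emb1Aux

open Emb1Aux in
theorem emb1 (m k κ C : ℕ) (hM : κ * C ≤ 2 ^ (k * m)) (O0 : Lang) :
    ∃ sub : Str → DT (Fin (2 ^ (k * m)) × Fin κ × Fin C) Bool,
      (∀ s, (sub s).depth ≤ 1) ∧
      (∀ s, (∀ u v : Str, u.length = k * m → v.length = k * m → s ≠ code m k u v) →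
        ∀ ζ, (sub s).eval ζ = O0 s) ∧
      ∀ ζ, SigmaTwo (fun s => (sub s).eval ζ) (List.replicate (2 ^ m) true) k ↔
        ∃ x, ∀ i c, ζ (x, i, c) = false := by
  have hcol : Nonempty (Fin κ × Fin C ↪ LV (k * m)) := by
    apply Function.Embedding.nonempty_of_card_le
    rw [card_LV, Fintype.card_prod, Fintype.card_fin, Fintype.card_fin]
    exact hM
  obtain ⟨col⟩ := hcol
  refine ⟨sb col O0, sb_depth col O0, fun s h ζ => sb_out col O0 s h ζ, fun ζ => ?_⟩
  have hlog : Nat.log 2 (List.replicate (2 ^ m) true).length = m := by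
    rw [List.length_replicate]
    exact Nat.log_pow (by norm_num) m
  unfold SigmaTwo
  rw [hlog]
  constructor
  · rintro ⟨u, hu, h⟩
    refine ⟨(row (k * m)).symm ⟨u, hu⟩, fun i c => ?_⟩
    have h1 := h (col (i, c)).1 (col (i, c)).2
    have h2 := sb_in col O0 ((row (k * m)).symm ⟨u, hu⟩) (i, c) ζ
    have h0 : (row (k * m) ((row (k * m)).symm ⟨u, hu⟩)).1 = u :=
      congrArg Subtype.val ((row (k * m)).apply_symm_apply ⟨u, hu⟩)
    rw [h0] at h2
    have h3 : (! ζ ((row (k * m)).symm ⟨u, hu⟩, i, c)) = true := by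
      rw [← h2]
      exact h1
    simpa using h3
  · rintro ⟨x, hx⟩
    refine ⟨(row (k * m) x).1, (row (k * m) x).2, fun v hv => ?_⟩
    by_cases h : ∃ p, v = (col p).1
    · obtain ⟨p, rfl⟩ := h
      show (sb col O0 (code m k (row (k * m) x).1 (col p).1)).eval ζ = true
      rw [sb_in, hx p.1 p.2]
      rfl
    · exact sb_rest col O0 _ v (row (k * m) x).2 hv (fun p hp => h ⟨p, hp⟩) ζ

end Pool.Agent.Lib.Pf91712
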