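import Pool.Agent.Lib.Pf91712.Defs
import Pool.Agent.Lib.Pf91712.CDefs
import Pool.Agent.Lib.Pa76659.Sem

/-!
# The oracle queries of the machine are counting queries

Given: each oracle bit `O ζ s` is `(sub s).eval ζ`, a tree of depth at most `1`. For a query string `p` with
`p.length ≤ B` the answer `join (O ζ) (bitsOf (cnt (O ζ) M' f h c') g) p` is a counting query:
* `p = []`: constant `false`: `φ = fun _ => false`, all trees `DT.leaf false`;
* `p = false :: v`: `φ n = decide (n = w)`... or take the tree `sub v` for all `z` and `φ n = decide (0 < n)`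
  (`0 < w` as `1 ≤ 2 ^ _ ≤ w`); depth `≤ 1`, so we need `1 ≤ d`, assumed as `hd1`;
* `p = true :: v`, `k' = (unary v).1`, `i = (unary (unary v).2).1`, `y = (unary (unary v).2).2`: if `k' > g`:
  constant `false`. If `k' ≤ g`: `φ n = n.testBit i`; let `l = h k' * Nat.log 2 y.length`; as `y.length ≤ B`
  (`unary` shortens strings: easy induction), `2 ^ l ≤ 2 ^ (Hm * Nat.log 2 B) ≤ w`. Fix an injection (bijection onto the
  first `2 ^ l` elements, or any injection) `e : {z : Str // z.length = l} → Fin w` (for instance from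
  `Pa76659.bsE` in `LBReq.lean`, or cardinalities: `card {z // z.length = l} = 2 ^ l`, `Fintype` via `List.Vector Bool l`);
  the tree at `e z` is `(accTree M' (inp3 y k' z) (f k' * (y.length + 1) ^ c')).subst sub`
  (`accTree_eval`, `DT.eval_subst`, `accTree_depth`, `DT.depth_subst` with `S = Set.univ`, `d = 1`), the tree at other
  elements of `Fin w` is `DT.leaf false`. The number of accepting trees is `cnt (O ζ) M' f h c' y k'`.
  Depth `≤ f k' * (y.length + 1) ^ c' ≤ Fm * (B + 1) ^ c' ≤ d`.
For `p.length > B` take any constant counting query.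
(The tree `bind`/`subst` API is in `Pa76659/DT.lean`, `accTree` in `Pa76659/Sem.lean`.)
-/

set_option autoImplicit false

namespace Pool.Agent.Lib.Pf91712

open Pool.Agent.Lib.Pa76659 (Str Lang Prog Halts accepts join DT)

theorem qin_univ {V α : Type} : ∀ T : DT V α, T.QIn Set.univ
  | DT.leaf _ => trivial
  | DT.node _ f t => ⟨trivial, qin_univ f, qin_univ t⟩

theorem unary_length : ∀ v : Str, (unary v).2.length ≤ v.length
  | [] => le_rfl
  | true :: v => by
      have := unary_length v
      simp only [unary, List.length_cons]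
      omega
  | false :: v => by
      simp only [unary, List.length_cons]
      omega

/-- the constant counting query -/
def cqConst (E : Type) (w : ℕ) (b : Bool) : CQ E w := ⟨fun _ => b, fun _ => DT.leaf false⟩

theorem cqConst_dep (E : Type) (w : ℕ) (b : Bool) (d : ℕ) : (cqConst E w b).Dep d := by
  intro z
  simp [cqConst, DT.depth]

theorem cqConst_val {E : Type} {w : ℕ} (b : Bool) (ζ : E → Bool) : (cqConst E w b).val ζ = b := rfl

/-- the counting query for the number of accepting strings -/
theorem cq_count {E : Type} (sub : Str → DT E Bool) (w l : ℕ) (hl : 2 ^ l ≤ w)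
    (T : Str → DT Str Bool) :
    ∃ D : Fin w → DT E Bool, (∀ j, D j = DT.leaf false ∨ ∃ z : Str, z.length = l ∧
        D j = (T z).subst sub) ∧
      ∀ ζ : E → Bool, (Finset.univ.filter fun j => (D j).eval ζ = true).card =
        Nat.card {z : Str // z.length = l ∧ (T z).eval (fun s => (sub s).eval ζ) = true} := by
  classical
  let e0 : List.Vector Bool l ≃ Fin (2 ^ l) :=
    Fintype.equivFinOfCardEq (by simp)
  let e : List.Vector Bool l → Fin w := fun z => Fin.castLE hl (e0 z)
  have he : Function.Injective e := fun a b h => e0.injective (Fin.castLE_injective hl h)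
  let D : Fin w → DT E Bool := fun j =>
    if h : ∃ z : List.Vector Bool l, e z = j then (T h.choose.1).subst sub else DT.leaf false
  have hDe : ∀ z : List.Vector Bool l, D (e z) = (T z.1).subst sub := by
    intro z
    have h : ∃ z' : List.Vector Bool l, e z' = e z := ⟨z, rfl⟩
    have h2 : h.choose = z := he h.choose_spec
    simp only [D]
    rw [dif_pos h, h2]
  refine ⟨D, fun j => ?_, fun ζ => ?_⟩
  · by_cases h : ∃ z : List.Vector Bool l, e z = j
    · right
      refine ⟨h.choose.1, h.choose.2, ?_⟩
      simp only [D]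
      rw [dif_pos h]
    · left
      simp only [D]
      rw [dif_neg h]
  · have h1 : (Finset.univ.filter fun j => (D j).eval ζ = true).card =
        Nat.card {j : Fin w // (D j).eval ζ = true} := by
      rw [Nat.card_eq_fintype_card, Fintype.card_subtype]
    rw [h1]
    symm
    have hDe' : ∀ z : {z : Str // z.length = l ∧ (T z).eval (fun s => (sub s).eval ζ) = true},
        (D (e (⟨z.1, z.2.1⟩ : List.Vector Bool l))).eval ζ = true := by
      intro z
      have h2 : D (e (⟨z.1, z.2.1⟩ : List.Vector Bool l)) = (T z.1).subst sub :=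
        hDe (⟨z.1, z.2.1⟩ : List.Vector Bool l)
      rw [congrArg (DT.eval ζ) h2, DT.eval_subst]
      exact z.2.2
    refine Nat.card_eq_of_bijective
      (fun z : {z : Str // z.length = l ∧ (T z).eval (fun s => (sub s).eval ζ) = true} =>
        (⟨e (⟨z.1, z.2.1⟩ : List.Vector Bool l), hDe' z⟩ :
          {j : Fin w // (D j).eval ζ = true})) ⟨?_, ?_⟩
    · intro a b hab
      have h2 : (⟨a.1, a.2.1⟩ : List.Vector Bool l) = ⟨b.1, b.2.1⟩ := he (congrArg Subtype.val hab)
      have h3 : a.1 = b.1 := congrArg List.Vector.toList h2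
      exact Subtype.ext h3
    · rintro ⟨j, hj⟩
      by_cases h : ∃ z : List.Vector Bool l, e z = j
      · obtain ⟨z, rfl⟩ := h
        rw [hDe, DT.eval_subst] at hj
        exact ⟨⟨z.1, z.2, hj⟩, rfl⟩
      · exfalso
        have : D j = DT.leaf false := by
          simp only [D]
          rw [dif_neg h]
        rw [this] at hj
        simp [DT.eval] at hj

theorem emb2_aux {E : Type} (sub : Str → DT E Bool) (hsub : ∀ s, (sub s).depth ≤ 1)
    (M' : Prog) (f h : ℕ → ℕ) (c' g B Fm Hm d w : ℕ) (hF : ∀ k', k' ≤ g → f k' ≤ Fm)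
    (hH : ∀ k', k' ≤ g → h k' ≤ Hm) (hd1 : 1 ≤ d) (hd : Fm * (B + 1) ^ c' ≤ d)
    (hw : 2 ^ (Hm * Nat.log 2 B) ≤ w) (p : Str) :
    ∃ q : CQ E w, q.Dep d ∧ ∀ ζ : E → Bool, p.length ≤ B →
        q.val ζ = join (fun s => (sub s).eval ζ)
          (bitsOf (cnt (fun s => (sub s).eval ζ) M' f h c') g) p := by
  classical
  match p with
  | [] => exact ⟨cqConst E w false, cqConst_dep _ _ _ _, fun ζ _ => rfl⟩
  | false :: v =>
      have hw0 : 0 < w := lt_of_lt_of_le (by positivity) hw
      refine ⟨⟨fun n => decide (0 < n), fun _ => sub v⟩, fun z => (hsub v).trans hd1,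
        fun ζ _ => ?_⟩
      show decide (0 < (Finset.univ.filter fun _ : Fin w => (sub v).eval ζ = true).card) =
        (sub v).eval ζ
      cases hv : (sub v).eval ζ with
      | true => simpa using hw0
      | false => simp
  | true :: v =>
      by_cases hg : (unary v).1 ≤ g
      swap
      · refine ⟨cqConst E w false, cqConst_dep _ _ _ _, fun ζ _ => ?_⟩
        rw [cqConst_val]
        show false = bitsOf _ g v
        simp [bitsOf, hg]
      by_cases hB : (true :: v).length ≤ B
      swap
      · exact ⟨cqConst E w false, cqConst_dep _ _ _ _, fun ζ h' => absurd h' hB⟩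
      set k' := (unary v).1 with hk'
      set i := (unary (unary v).2).1 with hi
      set y := (unary (unary v).2).2 with hy
      have hyB : y.length ≤ B := by
        have h1 := unary_length v
        have h2 := unary_length (unary v).2
        rw [← hy] at h2
        simp only [List.length_cons] at hB
        omega
      have hl : 2 ^ (h k' * Nat.log 2 y.length) ≤ w :=
        (Nat.pow_le_pow_right (by norm_num)
          (Nat.mul_le_mul (hH k' hg) (Nat.log_mono_right hyB))).trans hw
      obtain ⟨D, hD1, hD2⟩ := cq_count sub w (h k' * Nat.log 2 y.length) hl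
        (fun z => Pool.Agent.Lib.Pa76659.accTree M' (inp3 y k' z) (f k' * (y.length + 1) ^ c'))
      refine ⟨⟨fun n => n.testBit i, D⟩, fun j => ?_, fun ζ _ => ?_⟩
      · rcases hD1 j with hj | ⟨z, -, hj⟩
        · show (D j).depth ≤ d
          rw [hj]
          simp [DT.depth]
        · show (D j).depth ≤ d
          rw [hj]
          have h1 := DT.depth_subst sub Set.univ 1 (fun s _ => hsub s)
            (Pool.Agent.Lib.Pa76659.accTree M' (inp3 y k' z) (f k' * (y.length + 1) ^ c'))
            (qin_univ _)
          have h2 := Pool.Agent.Lib.Pa76659.accTree_depth M' (inp3 y k' z)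
            (f k' * (y.length + 1) ^ c')
          have h3 : f k' * (y.length + 1) ^ c' ≤ Fm * (B + 1) ^ c' :=
            Nat.mul_le_mul (hF k' hg) (Nat.pow_le_pow_left (by omega) _)
          omega
      · show ((Finset.univ.filter fun j => (D j).eval ζ = true).card).testBit i = bitsOf _ g v
        rw [hD2 ζ]
        unfold bitsOf cnt
        rw [← hk', ← hi, ← hy, decide_eq_true hg, Bool.true_and]
        simp only [Pool.Agent.Lib.Pa76659.accTree_eval]

theorem emb2 {E : Type} (sub : Str → DT E Bool) (hsub : ∀ s, (sub s).depth ≤ 1)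
    (M' : Prog) (f h : ℕ → ℕ) (c' g B Fm Hm d w : ℕ) (hF : ∀ k', k' ≤ g → f k' ≤ Fm)
    (hH : ∀ k', k' ≤ g → h k' ≤ Hm) (hd1 : 1 ≤ d) (hd : Fm * (B + 1) ^ c' ≤ d)
    (hw : 2 ^ (Hm * Nat.log 2 B) ≤ w) :
    ∃ cq : Str → CQ E w, (∀ p, (cq p).Dep d) ∧
      ∀ (ζ : E → Bool) (p : Str), p.length ≤ B →
        (cq p).val ζ = join (fun s => (sub s).eval ζ)
          (bitsOf (cnt (fun s => (sub s).eval ζ) M' f h c') g) p := by
  choose cq h1 h2 using emb2_aux sub hsub M' f h c' g B Fm Hm d w hF hH hd1 hd hw
  exact ⟨cq, h1, fun ζ p hp => h2 p ζ hp⟩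

end Pool.Agent.Lib.Pf91712
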