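import Mathlib

/-!
# Numbers for large `m`

Let `B = 2 ^ m + k + a * (2 ^ m + 1) ^ c`. For large `m`: `B + 1 ≤ 2 ^ ((c + 2) * m)`, because
`(2 ^ m + 1) ^ c ≤ 2 ^ ((m + 1) * c) = 2 ^ c * 2 ^ (m * c)`, and `a * 2 ^ c + k + 2 ≤ 2 ^ m`. Then
`t = a * (2 ^ m + 1) ^ c ≤ 2 ^ ((c + 1) * m)`; `Nat.log 2 B ≤ (c + 2) * m`, so `2 ^ (Hm * log B) ≤ 2 ^ (Hm (c + 2) m)`;
`d = Fm * (B + 1) ^ c' + 1 ≤ (Fm + 1) * 2 ^ ((c + 2) c' m) ≤ 2 ^ (((c + 2) c' + 1) m)` if `Fm + 1 ≤ 2 ^ m`.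
-/

set_option autoImplicit false

namespace Pool.Agent.Lib.Pf91712

theorem mnum (a c c' k Fm Hm : ℕ) : ∃ m0 : ℕ, ∀ m, m0 ≤ m →
    a * (2 ^ m + 1) ^ c ≤ 2 ^ ((c + 1) * m) ∧
    Fm * (2 ^ m + k + a * (2 ^ m + 1) ^ c + 1) ^ c' + 1 ≤ 2 ^ (((c + 2) * c' + 1) * m) ∧
    2 ^ (Hm * Nat.log 2 (2 ^ m + k + a * (2 ^ m + 1) ^ c)) ≤ 2 ^ (Hm * (c + 2) * m) := by
  refine ⟨a * 2 ^ c + k + 2 + Fm, fun m hm => ?_⟩
  have hmM : m < 2 ^ m := Nat.lt_two_pow_self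
  have e1 : 2 ^ ((c + 1) * m) = 2 ^ m * (2 ^ m) ^ c := by
    rw [← pow_mul, ← pow_add]; congr 1; ring
  have e2 : 2 ^ ((c + 2) * m) = 2 ^ m * 2 ^ m * (2 ^ m) ^ c := by
    rw [← pow_mul, ← pow_add, ← pow_add]; congr 1; ring
  have e3 : 2 ^ (((c + 2) * c' + 1) * m) = 2 ^ m * (2 ^ ((c + 2) * m)) ^ c' := by
    rw [← pow_mul, ← pow_add]; congr 1; ring
  rw [e1, e3]
  generalize hM : 2 ^ m = M at *
  have hP : 1 ≤ M ^ c := Nat.one_le_iff_ne_zero.2 (by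
    have : M ≠ 0 := by omega
    positivity)
  have h1 : a * (M + 1) ^ c ≤ a * 2 ^ c * M ^ c := by
    calc a * (M + 1) ^ c ≤ a * (2 * M) ^ c := by gcongr; omega
      _ = a * 2 ^ c * M ^ c := by rw [mul_pow]; ring
  have h2 : M + k + a * (M + 1) ^ c + 1 ≤ 2 ^ ((c + 2) * m) := by
    rw [e2]
    calc M + k + a * (M + 1) ^ c + 1 ≤ (M + k + 1) * 1 + a * 2 ^ c * M ^ c := by omega
      _ ≤ (M + k + 1) * M ^ c + a * 2 ^ c * M ^ c := by gcongr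
      _ = (M + (k + 1 + a * 2 ^ c)) * M ^ c := by ring
      _ ≤ (M + M) * M ^ c := by gcongr; omega
      _ ≤ (M * M) * M ^ c := by
          have h2M : 2 ≤ M := by omega
          have : 2 * M ≤ M * M := Nat.mul_le_mul_right _ h2M
          apply Nat.mul_le_mul_right
          omega
  refine ⟨?_, ?_, ?_⟩
  · refine h1.trans ?_
    gcongr
    omega
  · have hQ : 1 ≤ (2 ^ ((c + 2) * m)) ^ c' := Nat.one_le_iff_ne_zero.2 (by positivity)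
    calc Fm * (M + k + a * (M + 1) ^ c + 1) ^ c' + 1
        ≤ Fm * (2 ^ ((c + 2) * m)) ^ c' + (2 ^ ((c + 2) * m)) ^ c' := by gcongr
      _ = (Fm + 1) * (2 ^ ((c + 2) * m)) ^ c' := by ring
      _ ≤ M * (2 ^ ((c + 2) * m)) ^ c' := by gcongr; omega
  · apply Nat.pow_le_pow_right (by norm_num)
    rw [mul_assoc]
    apply Nat.mul_le_mul_left
    apply Nat.le_of_lt
    apply Nat.log_lt_of_lt_pow
    · omega
    · omega

end Pool.Agent.Lib.Pf91712
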