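import Pool.Agent.Lib.Pf91712.Core
import Pool.Agent.Lib.Pf91712.Asym
import Pool.Agent.Lib.Pf91712.Emb1
import Pool.Agent.Lib.Pf91712.Emb2
import Pool.Agent.Lib.Pf91712.MNum

/-!
# The one-stage lower bound

`Fm = ∑ i ≤ g, f i`, `Hm = ∑ i ≤ g, h i` bound `f`, `h` on `[0, g]`. `mnum` gives the bounds for `t = a * (2 ^ m + 1) ^ c`,
`d = Fm * (B + 1) ^ c' + 1`, `w = 2 ^ (Hm * Nat.log 2 B)`, `B = 2 ^ m + k + a * (2 ^ m + 1) ^ c`, with
`c1 = Hm * (c + 2)`, `c2 = (c + 2) * c' + 1`, `c3 = c + 1`; `asym c1 c2 c3 k` gives `τ`, `m0` and the hypotheses of `core`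
for `ρ = Fin (2 ^ (k * m))`, columns `Fin (2 ^ (k * m - (τ + 2)))`. `emb1`, `emb2` and
`T = accTree M (inp3 (replicate (2 ^ m) true) k []) t` (`accTree_qin`: all labels have length `≤ B`; `accTree_eval`,
`accTree_depth`, `DT.eval_congr`); the input `ζ` of `core` gives the oracle `fun s => (sub s).eval ζ`.
-/

set_option autoImplicit false

namespace Pool.Agent.Lib.Pf91712

open Pool.Agent.Lib.Pa76659 (Str Lang Prog Halts accepts join DT)

namespace MachAux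

theorem inp3_bdd (x : Str) (k : ℕ) : Pa76659.Bdd (x.length + k) (inp3 x k []) := by
  intro r
  unfold inp3
  split_ifs
  · simp
  · simp
  · simp
  · simp

theorem le_sum (f : ℕ → ℕ) {g k' : ℕ} (h : k' ≤ g) : f k' ≤ ∑ i ∈ Finset.range (g + 1), f i :=
  Finset.single_le_sum (f := f) (fun _ _ => Nat.zero_le _) (Finset.mem_range.2 (by omega))

end MachAux

open MachAux in
theorem mach (M' M : Prog) (f h : ℕ → ℕ) (c' c a g k : ℕ)
    (hk : 2 * ((c + 2) * c' + 1) + 3 + (c + 2) ≤ k) : ∃ m0 : ℕ, ∀ m, m0 ≤ m →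
    ∀ O0 : Lang, ∃ O : Lang,
      (∀ s, (∀ u v : Str, u.length = k * m → v.length = k * m → s ≠ code m k u v) →
        O s = O0 s) ∧
      ¬ (SigmaTwo O (List.replicate (2 ^ m) true) k ↔
        accepts (join O (bitsOf (cnt O M' f h c') g)) M (inp3 (List.replicate (2 ^ m) true) k [])
          (a * (2 ^ m + 1) ^ c) = true) := by
  obtain ⟨Fm, hFm⟩ : ∃ Fm : ℕ, Fm = ∑ i ∈ Finset.range (g + 1), f i := ⟨_, rfl⟩
  obtain ⟨Hm, hHm⟩ : ∃ Hm : ℕ, Hm = ∑ i ∈ Finset.range (g + 1), h i := ⟨_, rfl⟩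
  obtain ⟨m1, hm1⟩ := mnum a c c' k Fm Hm
  obtain ⟨τ, m2, hm2⟩ := asym (Hm * (c + 2)) ((c + 2) * c' + 1) (c + 1) k (by omega) (by omega)
  refine ⟨max m1 m2, fun m hm O0 => ?_⟩
  obtain ⟨n1, n2, n3⟩ := hm1 m ((le_max_left _ _).trans hm)
  obtain ⟨a1, a2, a3⟩ := hm2 m ((le_max_right _ _).trans hm) _ _ _ n1 n2 n3
  obtain ⟨t, ht⟩ : ∃ t : ℕ, t = a * (2 ^ m + 1) ^ c := ⟨_, rfl⟩
  obtain ⟨B, hB⟩ : ∃ B : ℕ, B = 2 ^ m + k + a * (2 ^ m + 1) ^ c := ⟨_, rfl⟩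
  rw [← hB, ← ht] at a2 a3
  rw [← ht]
  obtain ⟨sub, hsub1, hsub2, hsub3⟩ := emb1 m k (τ + 2) (2 ^ (k * m - (τ + 2))) a1 O0
  obtain ⟨cq, hcq1, hcq2⟩ := emb2 sub hsub1 M' f h c' g B Fm Hm (Fm * (B + 1) ^ c' + 1)
    (2 ^ (Hm * Nat.log 2 B)) (fun k' hk' => hFm ▸ le_sum f hk')
    (fun k' hk' => hHm ▸ le_sum h hk') (Nat.le_add_left _ _) (Nat.le_succ _) le_rfl
  have hdep := Pa76659.accTree_depth M (inp3 (List.replicate (2 ^ m) true) k []) t
  have hqin := Pa76659.accTree_qin M (inp3 (List.replicate (2 ^ m) true) k []) t _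
    (inp3_bdd (List.replicate (2 ^ m) true) k)
  rw [List.length_replicate] at hqin
  obtain ⟨ζ, hζ⟩ := core (ρ := Fin (2 ^ (k * m))) cq hcq1
    (Pa76659.accTree M (inp3 (List.replicate (2 ^ m) true) k []) t) hdep (by positivity) a2
    (by rw [Fintype.card_fin]; exact a3)
  refine ⟨fun s => (sub s).eval ζ, fun s hs => hsub2 s hs ζ, ?_⟩
  have h1 : (Pa76659.accTree M (inp3 (List.replicate (2 ^ m) true) k []) t).eval
      (fun p => (cq p).val ζ) =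
      accepts (join (fun s => (sub s).eval ζ) (bitsOf (cnt (fun s => (sub s).eval ζ) M' f h c') g))
        M (inp3 (List.replicate (2 ^ m) true) k []) t := by
    rw [← Pa76659.accTree_eval]
    refine DT.eval_congr (S := {v : Str | v.length ≤ 2 ^ m + k + t}) (fun v hv => ?_) hqin
    refine hcq2 ζ v ?_
    rw [hB, ← ht]
    exact hv
  rw [hsub3 ζ]
  rw [h1] at hζ
  exact fun h2 => hζ h2.symm

end Pool.Agent.Lib.Pf91712
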